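import Pool.Agent.H32.N6W.Defs
import Pool.Agent.H63.WT.TD

/-!
# Two quadrics in `ℙ⁶`, all smooth intersections: the interface with the local block
-/

set_option autoImplicit false

open Polynomial NumberField IsDedekindDomain Matrix Pool.Agent.H32.QC Pool.Agent.H34.N6
open Pool.Agent.H13.DEV Pool.Agent.H34.N6V Pool.Agent.H63.WT

namespace Pool.Agent.H32.N6W

/-- the local lemma, nonarchimedean fields -/
structure LocX (F : Type) [Field F] (e : WG F → ℤ) : Prop where
  inv : EInv F e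
  loc : ∀ P1 P2 D : F[X], P1.Monic → P2.Monic → (P1 * P2).Separable →
    (P1 * P2).natDegree = 7 → Even P1.natDegree → IsCoprime (P1 * P2) D →
    IsSquare (P1.resultant D) → IsSquare (P2.resultant D) →
    CZ (gA (P1 * P2) D 0) (gA (P1 * P2) D 1) →
    ∃ A : F[X], LGood (P1 * P2) D A ∧ hpr P1 A D = e (cls (Phi P1 P2 D))
  tot : ∀ P D A : F[X], P.Monic → P.Separable → P.natDegree = 7 → IsCoprime P D →
    IsSquare (P.resultant D) → LGood P D A → hpr P A D = e (cls (Phi P 1 D))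

/-- the local lemma, real numbers -/
structure LocR (e : WG ℝ → ℤ) : Prop where
  inv : EInv ℝ e
  loc : ∀ P1 P2 D : ℝ[X], P1.Monic → P2.Monic → (P1 * P2).Separable →
    (P1 * P2).natDegree = 7 → Even P1.natDegree → IsCoprime (P1 * P2) D →
    IsSquare (P1.resultant D) → IsSquare (P2.resultant D) →
    CZ (gA (P1 * P2) D 0) (gA (P1 * P2) D 1) →
    ∃ x η : ℝ, 0 < η ∧ ∀ t : ℝ, |t - x| < η → eval t (P1 * P2) ≠ 0 ∧
      TI (ft (P1 * P2) D t) 3 ∧ hpr P1 (X - C t) D = e (cls (Phi P1 P2 D)) ∧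
      hpr (P1 * P2) (X - C t) D = e (cls (Phi (P1 * P2) 1 D))

/-- W2: the invariant of a form over `k` is a product of symbols of elements of `k` -/
def T_REC : Prop := ∀ (k ι : Type) [Field k] [CharZero k] [Fintype ι] [DecidableEq ι] (n : ℕ)
  (A : Matrix ι ι k), Fintype.card ι = 2 * n → A.IsSymm → A.det ≠ 0 →
  IsSquare ((-1) ^ n * A.det) → ∃ (m : ℕ) (x y : Fin m → k), (∀ i, x i ≠ 0 ∧ y i ≠ 0) ∧
    ∀ (F : Type) [Field F] (φ : k →+* F) (e : WG F → ℤ), EInv F e →
      e (cls (A.map φ)) = ∏ i, hil (φ (x i)) (φ (y i))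

/-- W5: the constants are products of symbols of elements of `k` -/
def T_QPF : Prop := ∀ (k : Type) [Field k] [CharZero k] (P1 P2 D : k[X]), P1.Monic →
  P2.Monic → (P1 * P2).Separable → IsCoprime (P1 * P2) D → IsSquare (P1.resultant D) →
  IsSquare (P2.resultant D) → ∃ (m : ℕ) (x y : Fin m → k), (∀ i, x i ≠ 0 ∧ y i ≠ 0) ∧
    ∀ (F : Type) [Field F] (φ : k →+* F) (e : WG F → ℤ), EInv F e →
      qm e (P1.map φ) (P2.map φ) (D.map φ) = ∏ i, hil (φ (x i)) (φ (y i))

/-- W7: the local lemma, both parities -/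
def T_LOQ : Prop := ∀ (F : Type) [Field F] (e : WG F → ℤ), LocX F e → ∀ P1 P2 D : F[X],
  P1.Monic → P2.Monic → (P1 * P2).Separable → (P1 * P2).natDegree = 7 →
  IsCoprime (P1 * P2) D → IsSquare (P1.resultant D) → IsSquare (P2.resultant D) →
  CZ (gA (P1 * P2) D 0) (gA (P1 * P2) D 1) →
  ∃ A : F[X], LGood (P1 * P2) D A ∧ hpr P1 A D = qm e P1 P2 D

/-- W7r: the local lemma over the real numbers, both parities -/
def T_LOR : Prop := ∀ e : WG ℝ → ℤ, LocR e → ∀ P1 P2 D : ℝ[X],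
  P1.Monic → P2.Monic → (P1 * P2).Separable → (P1 * P2).natDegree = 7 →
  IsCoprime (P1 * P2) D → IsSquare (P1.resultant D) → IsSquare (P2.resultant D) →
  CZ (gA (P1 * P2) D 0) (gA (P1 * P2) D 1) →
  ∃ x η : ℝ, 0 < η ∧ ∀ t : ℝ, |t - x| < η → eval t (P1 * P2) ≠ 0 ∧
    TI (ft (P1 * P2) D t) 3 ∧ hpr P1 (X - C t) D = qm e P1 P2 D

/-- W25: the local lemma at the finite places (from the local block) -/
def T_LXF : Prop := ∀ (k : Type) [Field k] [NumberField k] (v : FPl k),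
  ∃ e : WG (v.adicCompletion k) → ℤ, LocX (v.adicCompletion k) e

/-- W25r: the local lemma over the real numbers (from the local block) -/
def T_LXR : Prop := ∃ e : WG ℝ → ℤ, LocR e

end Pool.Agent.H32.N6W
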