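import Pool.Agent.H32.N6W.Defs

/-!
# Two quadrics in `ℙ⁶`, all smooth intersections: targets of the global part
-/

set_option autoImplicit false

open Polynomial NumberField IsDedekindDomain Matrix Pool.Agent.H32.QC Pool.Agent.H34.N6
open Pool.Agent.H13.DEV Pool.Agent.H34.N6V Pool.Agent.H63.WT

namespace Pool.Agent.H32.N6W

/-! ## Algebra -/

/-- W6: the symbols are multiplicative in the modulus -/
def T_HPM : Prop := ∀ (F ι : Type) [Field F] (s : Finset ι) (A : ι → F[X]) (a b : F[X]),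
  (∀ j ∈ s, A j ≠ 0) → hpr (∏ j ∈ s, A j) a b = ∏ j ∈ s, hpr (A j) a b

/-- W8: the form is split at the roots of a local polynomial in all extensions -/
def T_UPS : Prop := ∀ (F : Type) [Field F] (P D A : F[X]), P.Monic → LGood P D A →
  ∀ (E : Type) [Field E] (φ : F →+* E) (t : E), eval₂ φ t A = 0 →
  TI (ft (P.map φ) (D.map φ) t) 3

/-- W9: the symbol modulo `p` in a field with a surjection -/
def T_HMS : Prop := ∀ (F E : Type) [Field F] [Field E] (ψ : F[X] →+* E) (p a b : F[X]),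
  Function.Surjective ψ → (∀ Q, ψ Q = 0 ↔ p ∣ Q) → hm p a b = hil (ψ a) (ψ b)

/-- W10: irreducible factors -/
def T_FM3 : Prop := ∀ (k : Type) [Field k] (P : k[X]), P.Monic → P.Separable →
  ∃ (ι : Type) (_ : Fintype ι) (_ : DecidableEq ι) (Pj Ej : ι → k[X]), Fam Pj Ej ∧
    ∏ j, Pj j = P

/-- W11: the choice lemma for several polynomials -/
def T_APF : Prop := ∀ (k : Type) [Field k] [CharZero k] (F : Type) [NontriviallyNormedField F]
  (φ : k →+* F), DenseRange φ → ∀ (P : k[X]) (n m : ℕ) (A : Fin n → F[X]) (ε : Fin n → ℝ),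
  P ≠ 0 → (∀ i, (A i).Monic ∧ 1 ≤ (A i).natDegree ∧ 0 < ε i) →
  ∃ B : Fin n → Fin m → k[X], (∀ i j, (B i j).Monic ∧ (B i j).natDegree = (A i).natDegree ∧
    ∀ l, ‖((B i j).map φ - A i).coeff l‖ < ε i) ∧ (∏ i, ∏ j, B i j).Separable ∧
    IsCoprime (∏ i, ∏ j, B i j) P

/-! ## Places and factors -/

/-- W12: the completion is generated by the image of `e` -/
def T_DSU : Prop := ∀ (k L : Type) [Field k] [NumberField k] [Field L] [NumberField L]
  [Algebra k L] (P : k[X]) (e : L) (v : FPl k) (w : FPl L), P.Monic → Gen P e →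
  w.under (𝓞 k) = v → ∃ φ : v.adicCompletion k →+* w.adicCompletion L, Continuous φ ∧
    (∀ x : k, φ (ic v x) = kc k w x) ∧
    ∀ y, ∃ Q : (v.adicCompletion k)[X], eval₂ φ (ic w e) Q = y

/-- W13: the place is determined by the polynomial -/
def T_DIN : Prop := ∀ (k L : Type) [Field k] [NumberField k] [Field L] [NumberField L]
  [Algebra k L] (P : k[X]) (e : L) (v : FPl k) (w w' : FPl L)
  (φ : v.adicCompletion k →+* w.adicCompletion L)
  (φ' : v.adicCompletion k →+* w'.adicCompletion L), P.Monic → Gen P e →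
  Continuous φ → (∀ x : k, φ (ic v x) = kc k w x) → Continuous φ' →
  (∀ x : k, φ' (ic v x) = kc k w' x) →
  (∀ y, ∃ Q : (v.adicCompletion k)[X], eval₂ φ (ic w e) Q = y) →
  (∀ Q : (v.adicCompletion k)[X], eval₂ φ (ic w e) Q = 0 → eval₂ φ' (ic w' e) Q = 0) →
  w = w'

/-- W14: every factor has a place -/
def T_DCO : Prop := ∀ (k L : Type) [Field k] [NumberField k] [Field L] [NumberField L]
  [Algebra k L] (P : k[X]) (e : L) (v : FPl k) (q r : (v.adicCompletion k)[X]), P.Monic →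
  Gen P e → q.Monic → r.Monic → P.map (ic v) = q * r →
  (∀ (w : FPl L) (φ : v.adicCompletion k →+* w.adicCompletion L), w.under (𝓞 k) = v →
    Continuous φ → (∀ x : k, φ (ic v x) = kc k w x) → eval₂ φ (ic w e) q = 0) → r = 1

/-- W15: the decomposition -/
def T_DEC : Prop := ∀ (k L : Type) [Field k] [NumberField k] [Field L] [NumberField L]
  [Algebra k L] (P : k[X]) (e : L) (v : FPl k), P.Monic → Gen P e →
  ∃ (T : Type) (_ : Fintype T) (w : T → FPl L) (p : T → (v.adicCompletion k)[X]),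
    Dec P e v T w p

/-- W16: the symbols above a finite place -/
def T_ADF : Prop := ∀ (k L : Type) [Field k] [NumberField k] [Field L] [NumberField L]
  [Algebra k L] (P D : k[X]) (e : L) (v : FPl k) (B : k[X]), P.Monic → Gen P e →
  th D e (Sum.inl v) B = hpr (P.map (ic v)) (B.map (ic v)) (D.map (ic v))

/-- W17: the symbols above a real place -/
def T_ADR : Prop := ∀ (k L : Type) [Field k] [NumberField k] [Field L] [NumberField L]
  [Algebra k L] (P D : k[X]) (e : L) (v : k →+* ℝ) (B : k[X]), P.Monic → Gen P e →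
  th D e (Sum.inr v) B = hpr (P.map v) (B.map v) (D.map v)

/-- W17c: the symbols are locally constant, finite places -/
def T_HPC : Prop := ∀ (k L : Type) [Field k] [NumberField k] [Field L] [NumberField L]
  [Algebra k L] (P D : k[X]) (e : L) (v : FPl k) (A : (v.adicCompletion k)[X]), P.Monic →
  Gen P e → IsCoprime P D → IsCoprime A (P.map (ic v)) → ∃ ε : ℝ, 0 < ε ∧
  ∀ A' : (v.adicCompletion k)[X], A'.natDegree ≤ A.natDegree →
    (∀ i, ‖(A' - A).coeff i‖ < ε) →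
    hpr (P.map (ic v)) A' (D.map (ic v)) = hpr (P.map (ic v)) A (D.map (ic v))

/-- W18: the symbols are multiplicative -/
def T_THM : Prop := ∀ (k L : Type) [Field k] [NumberField k] [Field L] [NumberField L]
  [Algebra k L] (D : k[X]) (e : L) (v : Pl k), aeval e D ≠ 0 →
  (∀ G H : k[X], aeval e G ≠ 0 → aeval e H ≠ 0 →
    th D e v (G * H) = th D e v G * th D e v H) ∧
  ∀ G : k[X], aeval e G ≠ 0 → th D e v G = 1 ∨ th D e v G = -1

/-- W19: the symbols over a set of places -/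
def T_SGP : Prop := ∀ (k L : Type) [Field k] [NumberField k] [Field L] [NumberField L]
  [Algebra k L] (D : k[X]) (e : L) (S : Finset (Pl k)) (G : Pl k → k[X]),
  sg D e S G = ∏ v ∈ S, th D e v (G v)

/-- W20: nearby polynomials are prime to `P` -/
def T_CPN : Prop := ∀ (k : Type) [Field k] [NumberField k] (v : Pl k) (P G : k[X]), P.Monic →
  G.Monic → IsCoprime G P → ∃ ε : ℝ, 0 < ε ∧ ∀ G' : k[X], G'.Monic →
    G'.natDegree = G.natDegree → Close v ε G' G → IsCoprime G' P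

/-! ## Packaging -/

/-- W21: nearby real roots -/
def T_NER : Prop := ∀ (T : Type) [Fintype T] (a : T → ℝ) (δ : ℝ), 0 < δ → ∃ ε : ℝ, 0 < ε ∧
  ∀ G' : ℝ[X], G'.Monic → G'.natDegree = Fintype.card T →
    (∀ i, |(G' - ∏ s, (X - C (a s))).coeff i| < ε) →
  ∀ t : ℝ, eval t G' = 0 → ∃ s, |t - a s| < δ

/-- W23: packaging, finite places -/
def T_PCF : Prop := ∀ (k ι : Type) [Field k] [NumberField k] [Fintype ι] (L : ι → Type)
  [∀ j, Field (L j)] [∀ j, NumberField (L j)] [∀ j, Algebra k (L j)] (P D : k[X])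
  (Pj : ι → k[X]) (e : ∀ j, L j) (v : FPl k) (x : ι → ℤ), P.Monic → P.natDegree = 7 →
  P.Separable → IsCoprime P D → (∀ j, (Pj j).Monic ∧ Gen (Pj j) (e j) ∧ Pj j ∣ P) →
  Att (P.map (ic v)) (D.map (ic v)) (fun j => (Pj j).map (ic v)) x →
  ∃ a : ℕ, Odd a ∧ ∀ m : ℕ, Odd m → Pck L P D e (Sum.inl v) x (a * m)

/-- W24: packaging, real places -/
def T_PCR : Prop := ∀ (k ι : Type) [Field k] [NumberField k] [Fintype ι] (L : ι → Type)
  [∀ j, Field (L j)] [∀ j, NumberField (L j)] [∀ j, Algebra k (L j)] (P D : k[X])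
  (Pj : ι → k[X]) (e : ∀ j, L j) (v : k →+* ℝ) (x : ι → ℤ), P.Monic → P.natDegree = 7 →
  P.Separable → IsCoprime P D → (∀ j, (Pj j).Monic ∧ Gen (Pj j) (e j) ∧ Pj j ∣ P) →
  AttR P D Pj v x → ∃ a : ℕ, Odd a ∧ ∀ m : ℕ, Odd m → Pck L P D e (Sum.inr v) x (a * m)

/-! ## Assembly -/

/-- W26: the local data whose signs are orthogonal to the vertical classes -/
def T_VCD : Prop := ∀ (k ι : Type) [Field k] [NumberField k] [Fintype ι] [DecidableEq ι]
  (L : ι → Type) [∀ j, Field (L j)] [∀ j, NumberField (L j)] [∀ j, Algebra k (L j)]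
  (P D : k[X]) (Pj : ι → k[X]) (e : ∀ j, L j) (B : Set (Pl k)), B.Finite → P.Monic →
  P.natDegree = 7 → P.Separable → IsCoprime P D → IsSquare (P.resultant D) →
  (∀ j, (Pj j).Monic ∧ Irreducible (Pj j) ∧ Gen (Pj j) (e j)) → ∏ j, Pj j = P →
  LocCZ (gA P D 0) (gA P D 1) →
  ∃ (S : Finset (Pl k)) (N : ℕ) (G : Pl k → k[X]) (ε : Pl k → ℝ), (∀ v ∈ B, v ∈ S) ∧
    (∀ φ : k →+* ℝ, Sum.inr φ ∈ S) ∧ Odd N ∧ P.natDegree ≤ N ∧
    (∀ v ∈ S, 0 < ε v ∧ (G v).Monic ∧ (G v).natDegree = N ∧ IsCoprime (G v) P ∧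
      NearOK (SplitAt P D) v N (G v) (ε v) ∧
      ∀ G' : k[X], G'.Monic → G'.natDegree = N → Close v (ε v) G' (G v) → IsCoprime G' P) ∧
    ∀ s : Finset ι, IsSquare (∏ j ∈ s, (Pj j).resultant D) → ∏ j ∈ s, sg D (e j) S G = 1

/-- W27: adjusting the signs, relative version -/
def T_ADJ2 : Prop := ∀ (k ι : Type) [Field k] [NumberField k] [Fintype ι] [Nonempty ι]
  (L : ι → Type) [∀ j, Field (L j)] [∀ j, NumberField (L j)] [∀ j, Algebra k (L j)]
  (P E : ι → k[X]) (D : k[X]) (e : ∀ j, L j)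
  (R : ∀ (K : Type) [Field K] [NumberField K] [Algebra k K], Pl K → K → Prop)
  (S : Finset (Pl k)) (N : ℕ) (G : Pl k → k[X]) (ε : Pl k → ℝ),
  HypF P E D R S N G ε → (∀ j, Gen (P j) (e j)) →
  (∀ s : Finset ι, IsSquare (∏ j ∈ s, (P j).resultant D) → ∏ j ∈ s, sg D (e j) S G = 1) →
  ∃ (S' : Finset (Pl k)) (G' : Pl k → k[X]) (ε' : Pl k → ℝ), HypF P E D R S' N G' ε' ∧
    S ⊆ S' ∧ (∀ v ∈ S, G' v = G v ∧ ε' v = ε v) ∧ ∀ j, sg D (e j) S' G' = 1

/-- W28: the device, relative version -/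
def T_DVF2 : Prop := ∀ (k ι : Type) [Field k] [NumberField k] [Fintype ι] [Nonempty ι]
  (L : ι → Type) [∀ j, Field (L j)] [∀ j, NumberField (L j)] [∀ j, Algebra k (L j)]
  (P E : ι → k[X]) (D : k[X]) (e : ∀ j, L j)
  (R : ∀ (K : Type) [Field K] [NumberField K] [Algebra k K], Pl K → K → Prop)
  (S : Finset (Pl k)) (N : ℕ) (G : Pl k → k[X]) (ε : Pl k → ℝ),
  HypF P E D R S N G ε → (∀ j, Gen (P j) (e j)) →
  (∀ s : Finset ι, IsSquare (∏ j ∈ s, (P j).resultant D) → ∏ j ∈ s, sg D (e j) S G = 1) →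
  ∃ (K : Type) (_ : Field K) (_ : NumberField K) (_ : Algebra k K) (θ : K) (G₀ : k[X]),
    Odd (Module.finrank k K) ∧ IntermediateField.adjoin k {θ} = ⊤ ∧
    aeval θ (∏ j, P j) ≠ 0 ∧ (∀ w, R K w θ) ∧ G₀.Monic ∧ G₀.natDegree = N ∧
    aeval θ G₀ = 0 ∧ ∀ v ∈ S, Close v (ε v) G₀ (G v)

/-- W29: the hypotheses of the device for the factors modulo which `D` is not a square -/
def T_HYP : Prop := ∀ (k ι : Type) [Field k] [NumberField k] [Fintype ι] [DecidableEq ι]
  (P D : k[X]) (Pj Ej : ι → k[X]) (J : Finset ι) (S : Finset (Pl k)) (N : ℕ)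
  (G : Pl k → k[X]) (ε : Pl k → ℝ), P.Monic → P.natDegree = 7 → P.Separable →
  IsCoprime P D → IsSquare (-(gA P D 0).det) → Fam Pj Ej → ∏ j, Pj j = P →
  (∀ j, j ∈ J ↔ ¬ SqMod (Pj j) D) →
  (∀ v : FPl k, Sum.inl v ∉ S → GoodAt P D v ∧
    GoodF (fun j : J => Pj j) (fun j : J => Ej j) D v) →
  (∀ φ : k →+* ℝ, Sum.inr φ ∈ S) → Odd N → P.natDegree ≤ N →
  (∀ v ∈ S, 0 < ε v ∧ (G v).Monic ∧ (G v).natDegree = N ∧ IsCoprime (G v) P ∧
    NearOK (SplitAt P D) v N (G v) (ε v)) →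
  HypF (fun j : J => Pj j) (fun j : J => Ej j) D
    (fun K _ _ _ w θ => aeval θ P ≠ 0 → SplitAt P D K w θ) S N G ε

/-- W30: the determinant of the form and the resultant -/
def T_DRS : Prop := ∀ (F : Type) [Field F] [CharZero F] (P D : F[X]), P.Monic →
  P.natDegree = 7 → P.Separable → IsCoprime P D → IsSquare (-(gA P D 0).det) →
  IsSquare (P.resultant D)

/-- W31: the theorem for the model -/
def T_COR3 : Prop := ∀ (k : Type) [Field k] [NumberField k] (P D : k[X]), P.Monic →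
  P.natDegree = 7 → P.Separable → IsCoprime P D → IsSquare (-(gA P D 0).det) →
  LocCZ (gA P D 0) (gA P D 1) → CZ (gA P D 0) (gA P D 1)

/-- W32: the normal form, separable discriminant -/
def T_NF3 : Prop := ∀ (k : Type) [Field k] [CharZero k] (A B : Matrix (Fin 7) (Fin 7) k),
  A.IsSymm → B.IsSymm →
  (A.map (C : k →+* k[X]) - (X : k[X]) • B.map (C : k →+* k[X])).det.Separable →
  (A.map (C : k →+* k[X]) - (X : k[X]) • B.map (C : k →+* k[X])).det.natDegree = 7 →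
  ∃ (P D : k[X]) (Q : Matrix (Fin 7) (Fin 7) k) (c : k), P.Monic ∧
    P.natDegree = 7 ∧ P.Separable ∧ IsCoprime P D ∧ IsSquare (-(gA P D 0).det) ∧
    c ≠ 0 ∧ IsUnit Q.det ∧ c • (Qᵀ * A * Q) = gA P D 1 ∧ c • (Qᵀ * B * Q) = gA P D 0

/-- W33: the theorem for two quadratic forms -/
def T_MAI3 : Prop := ∀ (k : Type) [Field k] [NumberField k] (A B : Matrix (Fin 7) (Fin 7) k),
  A.IsSymm → B.IsSymm →
  (A.map (C : k →+* k[X]) - (X : k[X]) • B.map (C : k →+* k[X])).det.Separable →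
  (A.map (C : k →+* k[X]) - (X : k[X]) • B.map (C : k →+* k[X])).det.natDegree = 7 →
  LocCZ A B → CZ A B

end Pool.Agent.H32.N6W
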