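import Pool.Agent.H32.N6V.Smo
import Pool.Agent.H32.N6V.Final2
import Pool.Agent.H32.N6W.Targets

/-!
# Two quadrics in `ℙ⁶`, all smooth intersections: the statement for polynomials

A smooth intersection has a nonsingular member in its pencil.
-/

set_option autoImplicit false

open Polynomial NumberField IsDedekindDomain Matrix Pool.Agent.H32.QC Pool.Agent.H34.N6
  Pool.Agent.H32.N6

namespace Pool.Agent.H32.N6W

section pencil

variable {E : Type} [Field E] {n : ℕ}

/-- a kernel vector which does not vanish at zero -/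
theorem exists_ker_ne {M : Matrix (Fin n) (Fin n) E[X]} (h : M.det = 0) :
    ∃ v : Fin n → E[X], M *ᵥ v = 0 ∧ (fun i => eval 0 (v i)) ≠ 0 := by
  obtain ⟨v, hv0, hv⟩ := Matrix.exists_mulVec_eq_zero_iff.2 h
  obtain ⟨N, hN⟩ : ∃ N : ℕ, ∑ i, (v i).natDegree ≤ N := ⟨_, le_rfl⟩
  induction N generalizing v with
  | zero =>
    refine ⟨v, hv, fun hcon => hv0 ?_⟩
    funext i
    have h1 : (v i).natDegree = 0 := by
      have h2 : (v i).natDegree ≤ ∑ i, (v i).natDegree :=
        Finset.single_le_sum (f := fun i => (v i).natDegree) (fun i _ => Nat.zero_le _)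
          (Finset.mem_univ i)
      omega
    have h3 := congrFun hcon i
    simp only [Pi.zero_apply] at h3 ⊢
    rw [eq_C_of_natDegree_eq_zero h1, eval_C] at h3
    rw [eq_C_of_natDegree_eq_zero h1, h3, C_0]
  | succ N ih =>
    by_cases hcon : (fun i => eval 0 (v i)) = 0
    · have h1 : ∀ i, ∃ w : E[X], v i = X * w := by
        intro i
        have h2 := congrFun hcon i
        simp only [Pi.zero_apply] at h2
        have h3 : X ∣ v i := X_dvd_iff.2 (by rw [coeff_zero_eq_eval_zero]; exact h2)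
        obtain ⟨w, hw⟩ := h3
        exact ⟨w, hw⟩
      choose w hw using h1
      have hvw : v = (X : E[X]) • w := by
        funext i
        rw [Pi.smul_apply, smul_eq_mul, hw i]
      have hw0 : w ≠ 0 := by
        rintro rfl
        apply hv0
        rw [hvw, smul_zero]
      have hMw : M *ᵥ w = 0 := by
        rw [hvw, Matrix.mulVec_smul] at hv
        funext i
        have h2 := congrFun hv i
        rw [Pi.smul_apply, smul_eq_mul, Pi.zero_apply] at h2
        exact (mul_eq_zero.1 h2).resolve_left X_ne_zero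
      refine ih w hw0 hMw ?_
      obtain ⟨i, hi⟩ : ∃ i, w i ≠ 0 := by
        by_contra hno
        push Not at hno
        exact hw0 (funext hno)
      have h3 : ∑ i, (w i).natDegree < ∑ i, (v i).natDegree := by
        apply Finset.sum_lt_sum
        · intro j _
          by_cases hj : w j = 0
          · rw [hj, natDegree_zero]
            exact Nat.zero_le _
          · rw [hw j, natDegree_X_mul hj]
            omega
        · refine ⟨i, Finset.mem_univ i, ?_⟩
          rw [hw i, natDegree_X_mul hi]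
          omega
      omega
    · exact ⟨v, hv, hcon⟩

/-- if all members of the pencil are singular then there is a singular zero -/
theorem sing_of_det {A B : Matrix (Fin n) (Fin n) E} (hA : A.IsSymm)
    (h : (A.map (C : E →+* E[X]) - (X : E[X]) • B.map (C : E →+* E[X])).det = 0) :
    ∃ x : Fin n → E, x ≠ 0 ∧ A *ᵥ x = 0 ∧ x ⬝ᵥ (B *ᵥ x) = 0 := by
  obtain ⟨v, hv, hv0⟩ := exists_ker_ne h
  rw [Matrix.sub_mulVec, Matrix.smul_mulVec, sub_eq_zero] at hv
  have hev : ∀ (M : Matrix (Fin n) (Fin n) E) (i : Fin n),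
      eval 0 ((M.map (C : E →+* E[X]) *ᵥ v) i) = (M *ᵥ fun i => eval 0 (v i)) i := by
    intro M i
    change eval 0 (∑ j, (M.map (C : E →+* E[X])) i j * v j) = ∑ j, M i j * eval 0 (v j)
    rw [Polynomial.eval_finsetSum]
    apply Finset.sum_congr rfl
    intro j _
    rw [eval_mul, Matrix.map_apply, eval_C]
  have hAx : A *ᵥ (fun i => eval 0 (v i)) = 0 := by
    funext i
    rw [← hev, hv, Pi.smul_apply, smul_eq_mul, eval_mul, eval_X, zero_mul, Pi.zero_apply]
  refine ⟨fun i => eval 0 (v i), hv0, hAx, ?_⟩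
  set x : Fin n → E := fun i => eval 0 (v i) with hx
  have h1 : (fun i => C (x i)) ⬝ᵥ (A.map (C : E →+* E[X]) *ᵥ v) = 0 := by
    rw [dotProduct_mulVec, ← Matrix.mulVec_transpose, ← Matrix.transpose_map, hA.eq]
    have h2 : (A.map (C : E →+* E[X])) *ᵥ (fun i => C (x i)) = 0 := by
      funext i
      have h3 := congrFun hAx i
      have h3' : ∑ j, A i j * x j = 0 := h3
      change ∑ j, (A.map (C : E →+* E[X])) i j * C (x j) = 0
      have h4 : ∑ j, (A.map (C : E →+* E[X])) i j * C (x j) = C (∑ j, A i j * x j) := by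
        rw [map_sum]
        exact Finset.sum_congr rfl fun j _ => by rw [Matrix.map_apply, C_mul]
      rw [h4, h3', C_0]
    rw [h2, zero_dotProduct]
  rw [hv, dotProduct_smul, smul_eq_mul] at h1
  have h2 := (mul_eq_zero.1 h1).resolve_left X_ne_zero
  have h3 := congrArg (eval 0) h2
  rw [eval_zero] at h3
  rw [← h3]
  unfold dotProduct
  rw [Polynomial.eval_finsetSum]
  apply Finset.sum_congr rfl
  intro i _
  rw [eval_mul, eval_C]
  exact congrArg (x i * ·) (hev B i).symm

theorem deg_of_det {A B : Matrix (Fin n) (Fin n) E} (h : B.det ≠ 0) :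
    (A.map (C : E →+* E[X]) - (X : E[X]) • B.map (C : E →+* E[X])).det.natDegree = n := by
  obtain ⟨u, hu⟩ := Pool.Agent.H32.N6V.ass_char (A := A) h
  have h1 : (B⁻¹ * A).charpoly.natDegree = n := by
    rw [Matrix.charpoly_natDegree_eq_dim, Fintype.card_fin]
  rw [← hu, natDegree_mul (Matrix.charpoly_monic _).ne_zero u.isUnit.ne_zero,
    natDegree_eq_zero_of_isUnit u.isUnit, add_zero, h1]

theorem eval_det (A B : Matrix (Fin n) (Fin n) E) (c : E) :
    eval c (A.map (C : E →+* E[X]) - (X : E[X]) • B.map (C : E →+* E[X])).det =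
      (A - c • B).det := by
  have h1 := RingHom.map_det (Polynomial.evalRingHom c)
    (A.map (C : E →+* E[X]) - (X : E[X]) • B.map (C : E →+* E[X]))
  rw [Polynomial.coe_evalRingHom] at h1
  rw [h1]
  apply congrArg
  ext i j
  rw [RingHom.mapMatrix_apply, Matrix.map_apply, Matrix.sub_apply, Matrix.smul_apply,
    Matrix.map_apply, Matrix.map_apply, Matrix.sub_apply, Matrix.smul_apply,
    Polynomial.coe_evalRingHom, smul_eq_mul, smul_eq_mul, eval_sub, eval_mul, eval_C, eval_X,
    eval_C]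

end pencil

open Pool.Agent.H32.SAB (hes T_HES)

/-- the gradients are linearly independent at the common zeros -/
def Smt {K : Type} [Field K] (f₁ f₂ : MvPolynomial (Fin 7) K) : Prop :=
  ∀ x : Fin 7 → AlgebraicClosure K, x ≠ 0 →
    MvPolynomial.eval₂ (algebraMap K (AlgebraicClosure K)) x f₁ = 0 →
    MvPolynomial.eval₂ (algebraMap K (AlgebraicClosure K)) x f₂ = 0 →
    LinearIndependent (AlgebraicClosure K)
      ![fun i => MvPolynomial.eval₂ (algebraMap K (AlgebraicClosure K)) x
          (MvPolynomial.pderiv i f₁),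
        fun i => MvPolynomial.eval₂ (algebraMap K (AlgebraicClosure K)) x
          (MvPolynomial.pderiv i f₂)]

/-- a smooth intersection has a nonsingular member in its pencil -/
theorem exists_nonsing (hHES : T_HES) {K : Type} [Field K] [CharZero K]
    {f₁ f₂ : MvPolynomial (Fin 7) K} (h1 : f₁.IsHomogeneous 2) (h2 : f₂.IsHomogeneous 2)
    (hsm : Smt f₁ f₂) : ∃ c : K, (hes f₁ - c • hes f₂).det ≠ 0 := by
  have hA := hHES K 7 f₁ h1
  have hB := hHES K 7 f₂ h2
  have hdet : ((hes f₁).map (C : K →+* K[X]) -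
      (X : K[X]) • (hes f₂).map (C : K →+* K[X])).det ≠ 0 := by
    intro h0
    have h3 := det_up (algebraMap K (AlgebraicClosure K)) (hes f₁) (hes f₂)
    rw [h0, Polynomial.map_zero] at h3
    obtain ⟨x, hx, hAx, hBx⟩ := sing_of_det
      (symm_map (algebraMap K (AlgebraicClosure K)) hA.1) h3
    have h2E : (2 : AlgebraicClosure K) ≠ 0 := two_ne_zero
    have ha' : MvPolynomial.eval₂ (algebraMap K (AlgebraicClosure K)) x f₁ = 0 := by
      have h4 := (hA.2 _ (algebraMap K (AlgebraicClosure K)) x).1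
      rw [hAx, dotProduct_zero] at h4
      exact (mul_eq_zero.1 h4.symm).resolve_left h2E
    have hb' : MvPolynomial.eval₂ (algebraMap K (AlgebraicClosure K)) x f₂ = 0 := by
      have h4 := (hB.2 _ (algebraMap K (AlgebraicClosure K)) x).1
      rw [hBx] at h4
      exact (mul_eq_zero.1 h4.symm).resolve_left h2E
    have h5 := (hsm x hx ha' hb').ne_zero 0
    apply h5
    funext i
    have h6 := (hA.2 _ (algebraMap K (AlgebraicClosure K)) x).2 i
    rw [hAx, Pi.zero_apply] at h6
    exact h6.symm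
  obtain ⟨c, hc⟩ : ∃ c : K, eval c ((hes f₁).map (C : K →+* K[X]) -
      (X : K[X]) • (hes f₂).map (C : K →+* K[X])).det ≠ 0 := by
    by_contra hcon
    push Not at hcon
    apply hdet
    apply Polynomial.funext
    intro r
    rw [hcon r, eval_zero]
  exact ⟨c, by rw [← eval_det]; exact hc⟩

theorem hes_sub {K : Type} [Field K] (f₁ f₂ : MvPolynomial (Fin 7) K) (c : K) :
    hes (f₁ - MvPolynomial.C c * f₂) = hes f₁ - c • hes f₂ := by
  ext i j
  unfold hes
  rw [Matrix.sub_apply, Matrix.smul_apply, Matrix.of_apply, Matrix.of_apply, Matrix.of_apply,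
    map_sub, map_sub, MvPolynomial.pderiv_C_mul, MvPolynomial.pderiv_C_mul,
    MvPolynomial.coeff_sub, MvPolynomial.coeff_C_mul, smul_eq_mul]

/-- the Hasse principle for all smooth intersections -/
theorem hasse3 (hHES : T_HES) (hMAI : T_MAI3) (K : Type) [Field K] [NumberField K]
    (f₁ f₂ : MvPolynomial (Fin 7) K) (h1 : f₁.IsHomogeneous 2) (h2 : f₂.IsHomogeneous 2)
    (hsm : Smt f₁ f₂)
    (hR : ∀ φ : K →+* ℝ, ∃ x : Fin 7 → ℝ, x ≠ 0 ∧
      MvPolynomial.eval₂ φ x f₁ = 0 ∧ MvPolynomial.eval₂ φ x f₂ = 0)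
    (hF : ∀ v : HeightOneSpectrum (𝓞 K), ∃ x : Fin 7 → v.adicCompletion K, x ≠ 0 ∧
      MvPolynomial.eval₂ (algebraMap K (v.adicCompletion K)) x f₁ = 0 ∧
      MvPolynomial.eval₂ (algebraMap K (v.adicCompletion K)) x f₂ = 0) :
    ∃ x : Fin 7 → K, x ≠ 0 ∧ MvPolynomial.eval x f₁ = 0 ∧ MvPolynomial.eval x f₂ = 0 := by
  obtain ⟨c, hc⟩ := exists_nonsing hHES h1 h2 hsm
  set g : MvPolynomial (Fin 7) K := f₁ - MvPolynomial.C c * f₂ with hg
  have hgh : g.IsHomogeneous 2 := by
    apply h1.sub
    have h3 := (MvPolynomial.isHomogeneous_C (Fin 7) c).mul h2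
    rw [zero_add] at h3
    exact h3
  have hgdet : (hes g).det ≠ 0 := by
    rw [hg, hes_sub]
    exact hc
  have hdeg : ((hes f₂).map (C : K →+* K[X]) -
      (X : K[X]) • (hes g).map (C : K →+* K[X])).det.natDegree = 7 := deg_of_det hgdet
  have hev : ∀ (R : Type) [Field R] (φ : K →+* R) (x : Fin 7 → R),
      MvPolynomial.eval₂ φ x g = MvPolynomial.eval₂ φ x f₁ - φ c * MvPolynomial.eval₂ φ x f₂ := by
    intro R _ φ x
    rw [hg, MvPolynomial.eval₂_sub, MvPolynomial.eval₂_mul, MvPolynomial.eval₂_C]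
  have hsm' : ∀ x : Fin 7 → AlgebraicClosure K, x ≠ 0 →
      MvPolynomial.eval₂ (algebraMap K (AlgebraicClosure K)) x f₂ = 0 →
      MvPolynomial.eval₂ (algebraMap K (AlgebraicClosure K)) x g = 0 →
      LinearIndependent (AlgebraicClosure K)
        ![fun i => MvPolynomial.eval₂ (algebraMap K (AlgebraicClosure K)) x
            (MvPolynomial.pderiv i f₂),
          fun i => MvPolynomial.eval₂ (algebraMap K (AlgebraicClosure K)) x
            (MvPolynomial.pderiv i g)] := by
    intro x hx hx2 hxg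
    rw [hev, hx2, mul_zero, sub_zero] at hxg
    have h3 := hsm x hx hxg hx2
    rw [LinearIndependent.pair_iff] at h3 ⊢
    intro s t hst
    have h4 := h3 t (s - t * algebraMap K (AlgebraicClosure K) c) (by
      rw [← hst]
      funext i
      rw [Pi.add_apply, Pi.add_apply, Pi.smul_apply, Pi.smul_apply, Pi.smul_apply,
        Pi.smul_apply, smul_eq_mul, smul_eq_mul, smul_eq_mul, smul_eq_mul, hg, map_sub,
        MvPolynomial.pderiv_C_mul, MvPolynomial.eval₂_sub,
        MvPolynomial.eval₂_mul, MvPolynomial.eval₂_C]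
      ring)
    refine ⟨?_, h4.1⟩
    have h5 := h4.2
    rw [h4.1, zero_mul, sub_zero] at h5
    exact h5
  have hloc : LocCZ (hes f₂) (hes g) := by
    intro w
    cases w with
    | inl v =>
      apply cz_of_poly hHES h2 hgh (ic v)
      obtain ⟨x, hx, ha, hb⟩ := hF v
      refine ⟨x, hx, hb, ?_⟩
      rw [hev, ha, hb, mul_zero, sub_zero]
    | inr φ =>
      apply cz_of_poly hHES h2 hgh φ
      obtain ⟨x, hx, ha, hb⟩ := hR φ
      refine ⟨x, hx, hb, ?_⟩
      rw [hev, ha, hb, mul_zero, sub_zero]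
  have h2K : (2 : K) ≠ 0 := two_ne_zero
  obtain ⟨x, hx, ha, hb⟩ := poly_of_cz hHES h2K h2 hgh (hMAI K (hes f₂) (hes g)
    (hHES K 7 f₂ h2).1 (hHES K 7 g hgh).1
    (Pool.Agent.H32.N6V.sep_poly hHES K f₂ g h2 hgh hdeg hsm') hdeg hloc)
  refine ⟨x, hx, ?_, ha⟩
  rw [hg, map_sub, map_mul, ha, mul_zero, sub_zero] at hb
  exact hb

end Pool.Agent.H32.N6W
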