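import Pool.Agent.H1.WTX.AN4
import Pool.Agent.H1.WTX.BCH
import Pool.Agent.H1.WTX.TRH
import Pool.Agent.H13.WIT.FPT
import Pool.Agent.H15.WT.QDZ
import Pool.Agent.H15.WT.SEU
import Pool.Agent.H15.WT.SYI
import Pool.Agent.H15.WT.TR
import Pool.Agent.H15.WT.TRO
import Pool.Agent.H15.WT.TRS
import Pool.Agent.H15.WT.TRT
import Pool.Agent.H16.WT.LAE
import Pool.Agent.H16.WT.LAL
import Pool.Agent.H16.WT.RAM
import Pool.Agent.H16.WT.RED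
import Pool.Agent.H17.WT.IRO
import Pool.Agent.H17.WT.LOCF
import Pool.Agent.H17.WT.SCL
import Pool.Agent.H18.WT.EU9
import Pool.Agent.H18.WT.EXR
import Pool.Agent.H18.WT.HPR
import Pool.Agent.H18.WT.RAL
import Pool.Agent.H18.WT.RTF
import Pool.Agent.H18.WT.RTI
import Pool.Agent.H23.WT.LOCR
import Pool.Agent.H23.WT.MEX
import Pool.Agent.H23.WT.NRP
import Pool.Agent.H23.WT.SUB
import Pool.Agent.H23.WT.TR2
import Pool.Agent.H26.WT.IEV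
import Pool.Agent.H26.WT.IOD
import Pool.Agent.H26.WT.LLP
import Pool.Agent.H29.WT.LIN
import Pool.Agent.H29.WT.ODD
import Pool.Agent.H34.WT.CAD
import Pool.Agent.H34.WT.NTR
import Pool.Agent.H34.WT.PRJ
import Pool.Agent.H34.WT.SPT
import Pool.Agent.H34.WT.SUM
import Pool.Agent.H34.WT.SYH
import Pool.Agent.H34.WT.SYN
import Pool.Agent.H34.WT.TRI
import Pool.Agent.H35.WT.NFT
import Pool.Agent.H36.WT.GDT
import Pool.Agent.H36.WT.GMM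
import Pool.Agent.H36.WT.GMV
import Pool.Agent.H36.WT.NNR
import Pool.Agent.H36.WT.SSQ
import Pool.Agent.H39.WT.LDV
import Pool.Agent.H49.WT.ALT
import Pool.Agent.H49.WT.BCS
import Pool.Agent.H49.WT.EUA
import Pool.Agent.H49.WT.EUB
import Pool.Agent.H49.WT.EXF
import Pool.Agent.H49.WT.PHI
import Pool.Agent.H49.WT.SPC
import Pool.Agent.H49.WT.SYF
import Pool.Agent.H51.WT.TOTF
import Pool.Agent.H55.WT.PTB
import Pool.Agent.H55.WT.RHP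
import Pool.Agent.H57.WT.CLC
import Pool.Agent.H57.WT.EXT
import Pool.Agent.H57.WT.FIN
import Pool.Agent.H57.WT.LOC
import Pool.Agent.H57.WT.ODP
import Pool.Agent.H57.WT.RMB
import Pool.Agent.H57.WT.SQP
import Pool.Agent.H63.WTR.FWD
import Pool.Agent.H67.WT.CLS
import Pool.Agent.H67.WT.W0
import Pool.Agent.H67.WT.WCL
import Pool.Agent.H68.WTQ.DTE
import Pool.Agent.H68.WTQ.I2D
import Pool.Agent.H68.WTQ.ONE
import Pool.Agent.H68.WTQ.PFI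
import Pool.Agent.H73.WT.LNE
import Pool.Agent.H80.WT.SP7
import Pool.Agent.H81.WT.DUA
import Pool.Agent.H81.WT.IV
import Pool.Agent.H81.WT.RCB
import Pool.Agent.H81.WT.REV
import Pool.Agent.H86.WT.EUC
import Pool.Agent.H86.WT.IX1
import Pool.Agent.H86.WT.MDS
import Pool.Agent.H86.WT.NRS
import Pool.Agent.H86.WT.NSQ
import Pool.Agent.H86.WT.RSG
import Pool.Agent.H86.WT.SGN
import Pool.Agent.H88.WT.SCR
import Pool.Agent.H88.WT.SYB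
import Pool.Agent.H91.WT.DIV
import Pool.Agent.H91.WT.E42
import Pool.Agent.H91.WT.I2AP
import Pool.Agent.H91.WT.I2B
import Pool.Agent.H91.WT.I2C
import Pool.Agent.H91.WT.I2DP
import Pool.Agent.H91.WT.TRU
import Pool.Agent.H23.QCF.LocalAll

/-!
# Two quadrics in `ℙ⁶`, all smooth intersections: assembly of the local part
-/

set_option autoImplicit false

namespace Pool.Agent.H32.N6W.LocAll

open Pool.Agent.H63.WT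

theorem lWCL : T_WCL :=
  Pool.Agent.H67.WT.pf_WCL

theorem lW0 : T_W0 :=
  Pool.Agent.H67.WT.pf_W0

theorem lCLS : T_CLS :=
  Pool.Agent.H67.WT.pf_CLS

theorem lMDS : T_MDS :=
  Pool.Agent.H86.WT.pf_MDS

theorem lI2D : T_I2D :=
  Pool.Agent.H68.WTQ.pf_I2D lMDS lW0 lCLS

theorem lI2A : T_I2A :=
  Pool.Agent.H68.WTQ.pf_I2A lI2D lCLS

theorem lAN4 : T_AN4 :=
  Pool.Agent.H1.WTX.pf_AN4

theorem lBCH : T_BCH :=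
  Pool.Agent.H1.WTX.pf_BCH lCLS

theorem lTRH : T_TRH :=
  Pool.Agent.H1.WTX.pf_TRH lCLS

theorem lONE : T_ONE :=
  Pool.Agent.H68.WTQ.pf_ONE lCLS

theorem lPFI : T_PFI :=
  Pool.Agent.H68.WTQ.pf_PFI lI2D lW0 lCLS lONE lAN4

theorem lLAE : T_LAE :=
  Pool.Agent.H16.WT.pf_LAE

theorem lLAL : T_LAL :=
  Pool.Agent.H16.WT.pf_LAL Pool.Agent.H23.QCF.LA.nix Pool.Agent.H23.QCF.LA.car

theorem lIV : T_IV :=
  Pool.Agent.H81.WT.pf_IV lPFI lW0 lCLS lONE lI2A lI2D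

theorem lSCL : T_SCL :=
  Pool.Agent.H17.WT.pf_SCL lIV lI2D lI2A lCLS lW0

theorem lQDZ : T_QDZ :=
  Pool.Agent.H15.WT.pf_QDZ lIV lPFI lONE lCLS

theorem lTRI : T_TRI :=
  Pool.Agent.H34.WT.pf_TRI lI2D

theorem lTRU : T_TRU :=
  Pool.Agent.H91.WT.pf_TRU lLAE lIV lSCL lCLS

theorem lTRT : T_TRT :=
  Pool.Agent.H15.WT.pf_TRT lTRU lTRI lTRH lIV lLAE lCLS

theorem lTR2 : T_TR2 :=
  Pool.Agent.H23.WT.pf_TR2 lTRU lTRH lPFI lIV lONE lCLS lLAE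

theorem lSEU : T_SEU :=
  Pool.Agent.H15.WT.pf_SEU lCLS

theorem lTRO : T_TRO :=
  Pool.Agent.H15.WT.pf_TRO lTRU lTRH lSEU lIV lPFI lONE lCLS

theorem lTRS : T_TRS :=
  Pool.Agent.H15.WT.pf_TRS lTRT lTR2 lTRO lLAE

theorem lTR : T_TR :=
  Pool.Agent.H15.WT.pf_TR lTRT lTRO lTRS lLAE

theorem lGDT : T_GDT :=
  Pool.Agent.H36.WT.pf_GDT

theorem lNNR : T_NNR :=
  Pool.Agent.H36.WT.pf_NNR lGDT

theorem lGMM : T_GMM :=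
  Pool.Agent.H36.WT.pf_GMM

theorem lNRS : T_NRS :=
  Pool.Agent.H86.WT.pf_NRS lGDT lNNR lGMM

theorem lSCR : T_SCR :=
  Pool.Agent.H88.WT.pf_SCR lCLS lGDT

theorem lSSQ : T_SSQ :=
  Pool.Agent.H36.WT.pf_SSQ lCLS lGDT

theorem lGMV : T_GMV :=
  Pool.Agent.H36.WT.pf_GMV

theorem lNSQ : T_NSQ :=
  Pool.Agent.H86.WT.pf_NSQ lGDT

theorem lSYI : T_SYI :=
  Pool.Agent.H15.WT.pf_SYI lI2D lCLS lGDT

theorem lSYH : T_SYH :=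
  Pool.Agent.H34.WT.pf_SYH lTR lPFI lTRH lCLS lGDT

theorem lSYF : T_SYF :=
  Pool.Agent.H49.WT.pf_SYF lSCR lSYH lTR lTRH lSCL lLAE lI2A lCLS lPFI lONE lGDT

theorem lSYB : T_SYB :=
  Pool.Agent.H88.WT.pf_SYB lSYF lSYH lTR lTRH lIV lLAE lPFI lONE lCLS lI2A

theorem lSYN : T_SYN :=
  Pool.Agent.H34.WT.pf_SYN lSYF lSYH

theorem lSYP : T_SYP :=
  Pool.Agent.H34.WT.pf_SYP lSYH

theorem lSYC : T_SYC :=
  Pool.Agent.H34.WT.pf_SYC lSCL lSSQ lGDT lCLS lI2D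

theorem lHPR : T_HPR :=
  Pool.Agent.H18.WT.pf_HPR lSYF lSYH lSYI lIV

theorem lEU1 : T_EU1 :=
  Pool.Agent.H49.WT.pf_EU1 lSCR lSEU

theorem lEU2 : T_EU2 :=
  Pool.Agent.H49.WT.pf_EU2 lSCR lSEU

theorem lEU8 : T_EU8 :=
  Pool.Agent.H49.WT.pf_EU8 lSCR lSEU

theorem lEU3 : T_EU3 :=
  Pool.Agent.H49.WT.pf_EU3 lEU1 lEU2 lSEU lSSQ

theorem lEU4 : T_EU4 :=
  Pool.Agent.H49.WT.pf_EU4 lEU1 lEU2 lSEU lSSQ

theorem lEU5 : T_EU5 :=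
  Pool.Agent.H86.WT.pf_EU5 lEU1 lEU2 lSEU lSSQ lONE

theorem lEU6 : T_EU6 :=
  Pool.Agent.H86.WT.pf_EU6 lEU1 lEU2 lSEU lSSQ lONE

theorem lEU7 : T_EU7 :=
  Pool.Agent.H86.WT.pf_EU7 lEU1 lEU2 lSEU lSSQ lONE

theorem lEU9 : T_EU9 :=
  Pool.Agent.H18.WT.pf_EU9 lI2D lW0 lCLS lAN4 lGDT lONE lSSQ

theorem lFPT : T_FPT :=
  Pool.Agent.H13.WIT.pf_FPT

theorem lRED : T_RED :=
  Pool.Agent.H16.WT.pf_RED

theorem lODP : T_ODP :=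
  Pool.Agent.H57.WT.pf_ODP lRED

theorem lRAM : T_RAM :=
  Pool.Agent.H16.WT.pf_RAM

theorem lNTR : T_NTR :=
  Pool.Agent.H34.WT.pf_NTR lSYN lSYB lSYC

theorem lSQP : T_SQP :=
  Pool.Agent.H57.WT.pf_SQP

theorem lRMB : T_RMB :=
  Pool.Agent.H57.WT.pf_RMB

theorem lLOC : T_LOC :=
  Pool.Agent.H57.WT.pf_LOC lSQP lRMB lSSQ lGDT lGMV

theorem lLIN : T_LIN :=
  Pool.Agent.H29.WT.pf_LIN lSQP lRMB lSYC lSSQ lGDT lLAL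

theorem lCLC : T_CLC :=
  Pool.Agent.H57.WT.pf_CLC lLOC lLIN

theorem lCAD : T_CAD :=
  Pool.Agent.H34.WT.pf_CAD lSYF lSYB lSYC lSYI lI2A lEU9 lGDT lNNR

theorem lFLN : T_FLN :=
  Pool.Agent.H34.WT.pf_FLN lCLC lCAD lLAL

theorem lIRO : T_IRO :=
  Pool.Agent.H17.WT.pf_IRO

theorem lNRP : T_NRP :=
  Pool.Agent.H23.WT.pf_NRP lSYP lIRO lLOC lSYF lSYB lSYC lSYI lIV lLAL lSSQ lGDT

theorem lRMV : T_RMV :=
  Pool.Agent.H34.WT.pf_RMV lNRP lLAL lIV lI2A lEU9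

theorem lEXT : T_EXT :=
  Pool.Agent.H57.WT.pf_EXT

theorem lPTB : T_PTB :=
  Pool.Agent.H55.WT.pf_PTB' Pool.Agent.H23.QCF.LA.opn

theorem lFIN : T_FIN :=
  Pool.Agent.H57.WT.pf_FIN lLOC lSSQ

theorem lFWD : T_FWD :=
  Pool.Agent.H63.WTR.pf_FWD lLOC lFIN lGDT lNNR lMDS lSCR lSSQ lCLS lONE lW0 lAN4 lGMV

theorem lDUA : T_DUA :=
  Pool.Agent.H81.WT.pf_DUA lSYB lSYC lSYF lSYI lIV lGDT lPFI lSYP lSSQ lSCL lCLS lONE lI2D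

theorem lSUB : T_SUB :=
  Pool.Agent.H23.WT.pf_SUB lFPT lLOC lSQP lRMB lPTB

theorem lREV : T_REV :=
  Pool.Agent.H81.WT.pf_REV lFWD lDUA lSUB lLOC lSSQ lSCR lSEU lSYB lEU9 lLAL lGDT lCLS lNNR lONE
    lPTB

theorem lMEX : T_MEX :=
  Pool.Agent.H23.WT.pf_MEX lSQP lRMB

theorem lDTE : T_DTE :=
  Pool.Agent.H68.WTQ.pf_DTE lMEX lRAM lNRS lNSQ

theorem lSUM : T_SUM :=
  Pool.Agent.H34.WT.pf_SUM lPTB lFWD lEU8 lEU7 lSYF lCAD lEU9 lNNR lGDT lLAL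

theorem lALT : T_ALT :=
  Pool.Agent.H49.WT.pf_ALT lFLN lSUM lPTB lCLC lFPT lNTR lIV lCAD lLAL lEU9

theorem lDIV : T_DIV :=
  Pool.Agent.H91.WT.pf_DIV lRED lPTB lNTR lCLC lCAD lIV lLAL lEU9

theorem lIOD : T_IOD :=
  Pool.Agent.H26.WT.pf_IOD lDIV lRMV lCAD lEU7 lEU9 lFWD lPTB lNNR lGDT lIV lLAL

theorem lIEV : T_IEV :=
  Pool.Agent.H26.WT.pf_IEV lDIV lRMV lCAD lEU3 lEU4 lEU9 lFWD lPTB lNNR lGDT lIV lLAL lSSQ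

theorem lIX1 : T_IX1 :=
  Pool.Agent.H86.WT.pf_IX1 lALT lIOD lIEV lPTB

theorem lLNE : T_LNE :=
  Pool.Agent.H73.WT.pf_LNE lGDT lMDS lNNR

theorem lE42 : T_E42 :=
  Pool.Agent.H91.WT.pf_E42 lEU5 lFWD lREV lRAM lCAD lFPT lNTR lLOC lSYF lLAL lEU9 lNNR lGDT

theorem lBCS : T_BCS :=
  Pool.Agent.H49.WT.pf_BCS lGMM lCLS lGDT

theorem lNFT : T_NFT :=
  Pool.Agent.H35.WT.pf_NFT lCLS lGDT lGMV

theorem lPRJ : T_PRJ :=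
  Pool.Agent.H34.WT.pf_PRJ lNFT lQDZ lBCH lBCS lTRH lTR lEU9 lGMM

theorem lI2AP : T_I2A' :=
  Pool.Agent.H91.WT.pf_I2AP lE42 lLNE lPRJ lQDZ lBCH lBCS lEU9 lNNR lGMM lGDT lCAD lSYI lLAL lIV

theorem lI2B : T_I2B :=
  Pool.Agent.H91.WT.pf_I2B lI2AP lPRJ lEXT lPTB lLOC lCAD lSYF lSYC lLAL

theorem lI2C : T_I2C :=
  Pool.Agent.H91.WT.pf_I2C lI2B lRED lNTR lCAD lLAL

theorem lLDV : T_LDV :=
  Pool.Agent.H39.WT.pf_LDV lGDT lGMV lSEU lSCR lNNR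

theorem lI2DP : T_I2D' :=
  Pool.Agent.H91.WT.pf_I2DP lREV lLDV lEXT lPTB lEU6 lEU4 lEU9 lI2AP lI2B lQDZ lBCH lBCS lGMM
    lGDT lCAD lNNR lSSQ lEU1 lONE lLAL

theorem lLLP : T_LLP :=
  Pool.Agent.H26.WT.pf_LLP lIX1 lI2DP lI2C lEU3 lRMV lCAD lLAL lIV lEU9

theorem lODD : T_ODD :=
  Pool.Agent.H29.WT.pf_ODD lSUM lODP lNRP lCAD lPTB lLAL lIV lEU9 lI2A

theorem lPHI : T_PHI :=
  Pool.Agent.H49.WT.pf_PHI lCLS lGDT lNRS lI2D lSSQ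

theorem lSP7 : T_SP7 :=
  Pool.Agent.H80.WT.pf_SP7 lW0 lCLS lGDT lSCR lSEU lSSQ lMDS lONE lNNR

theorem lSPT : T_SPT :=
  Pool.Agent.H34.WT.pf_SPT lNFT lSP7 lTR lTRH lEU9 lGMM lIV

theorem lSPC : T_SPC :=
  Pool.Agent.H49.WT.pf_SPC lSPT lEU8 lSYF lCAD lSSQ lNSQ lNNR lGDT

theorem lSGN : T_SGN :=
  Pool.Agent.H86.WT.pf_SGN lHPR lPHI lSSQ lCAD lIV lEU9

theorem lEXF : T_EXF :=
  Pool.Agent.H49.WT.pf_EXF lLAL lIV lPFI lI2A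

theorem lLOCF : T_LOCF :=
  Pool.Agent.H17.WT.pf_LOCF lDTE lLLP lODD lSPC lSGN lEXF lLAL lCAD lIV lHPR lGDT lI2D

theorem lTOTF : T_TOTF :=
  Pool.Agent.H51.WT.pf_TOTF lSPT lLAL lHPR lPHI lNRS lIV lEXF lSYB

theorem lRSG : T_RSG :=
  Pool.Agent.H86.WT.pf_RSG lW0 lCLS lONE lI2D

theorem lEXR : T_EXR :=
  Pool.Agent.H18.WT.pf_EXR lRSG lPFI lONE lI2A

theorem lRTF : T_RTF :=
  Pool.Agent.H18.WT.pf_RTF lSCR lSSQ lSEU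

theorem lRHP : T_RHP :=
  Pool.Agent.H55.WT.pf_RHP

theorem lRTI : T_RTI :=
  Pool.Agent.H18.WT.pf_RTI

theorem lRND : T_RND :=
  Pool.Agent.H18.WT.pf_RND

theorem lRAL : T_RAL :=
  Pool.Agent.H18.WT.pf_RAL

theorem lRCB : T_RCB :=
  Pool.Agent.H81.WT.pf_RCB

theorem lLOCR : T_LOCR :=
  Pool.Agent.H23.WT.pf_LOCR lEXR lRSG lRTF lRHP lRND lRTI lRAL lRCB lPHI lNRS lGDT lSSQ

end Pool.Agent.H32.N6W.LocAll
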