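import Pool.Agent.H32.N6W.All3
import Pool.Agent.H32.N6W.LocAll

/-!
# Two quadrics in `ℙ⁶`, all smooth intersections: the theorem without hypotheses
-/

set_option autoImplicit false

namespace Pool.Agent.H32.N6W.Top3

open Pool.Agent.H32.N6W.LocAll

theorem mai : T_MAI3 :=
  All3.mai3 lEXF lLOCF lTOTF lEXR lLOCR lCLS lONE lI2D lI2A lPFI lBCH lW0 lPHI lGMM

end Pool.Agent.H32.N6W.Top3
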