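import Pool.Agent.H23.N6W.ADR

/-!
# Two quadrics in `ℙ⁶`, all smooth intersections: the symbols above a finite place
-/

set_option autoImplicit false

open Polynomial NumberField IsDedekindDomain Matrix Pool.Agent.H32.QC Pool.Agent.H34.N6
open Pool.Agent.H13.DEV Pool.Agent.H34.N6V Pool.Agent.H63.WT

namespace Pool.Agent.H32.N6W

theorem pf_ADF (hDEC : T_DEC) (hHMS : T_HMS) (hHPM : T_HPM) : T_ADF := by
  classical
  intro k L _ _ _ _ _ P D e v B hP hG
  obtain ⟨T, iT, w, p, hdec⟩ := hDEC k L P e v hP hG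
  have hinj : Function.Injective (fun i => (Sum.inl (w i) : Pl L)) := fun i j h =>
    hdec.inj (Sum.inl.inj h)
  have hset : {u : Pl L | bel (k := k) u = Sum.inl v} =
      Set.range (fun i => (Sum.inl (w i) : Pl L)) := by
    ext u
    constructor
    · intro hu
      cases u with
      | inl u =>
        obtain ⟨i, hi⟩ := (hdec.mem u).1 (Sum.inl.inj hu)
        exact ⟨i, congrArg Sum.inl hi⟩
      | inr φ => cases hu
    · rintro ⟨i, rfl⟩
      have h1 := (hdec.mem (w i)).2 ⟨i, rfl⟩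
      change (Sum.inl ((w i).under (𝓞 k)) : Pl k) = Sum.inl v
      rw [h1]
  have h1 : th D e (Sum.inl v) B = ∏ i, hs (Sum.inl (w i)) (aeval e B) (aeval e D) := by
    have h2 : th D e (Sum.inl v) B =
        ∏ᶠ u ∈ {u : Pl L | bel (k := k) u = Sum.inl v}, hs u (aeval e B) (aeval e D) := rfl
    rw [h2, hset, finprod_mem_range hinj, finprod_eq_prod_of_fintype]
  rw [h1, hdec.prod, hHPM _ T Finset.univ p _ _ fun i _ => (hdec.irr i).1.ne_zero]
  apply Finset.prod_congr rfl
  intro i _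
  obtain ⟨φ, -, hφ, hsurj, hker⟩ := hdec.ev i
  have hcomp : φ.comp (ic v) = (ic (w i)).comp (algebraMap k L) := RingHom.ext hφ
  have hev : ∀ Q : k[X], eval₂ φ (ic (w i) e) (Q.map (ic v)) = ic (w i) (aeval e Q) := by
    intro Q
    rw [eval₂_map, hcomp, aeval_def, hom_eval₂]
  rw [Pool.Agent.H23.N6W.hpr_irr _ _ _ (hdec.irr i).1 (hdec.irr i).2,
    hHMS _ _ (eval₂RingHom φ (ic (w i) e)) (p i) _ _ hsurj hker]
  change hil (ic (w i) (aeval e B)) (ic (w i) (aeval e D)) =
    hil (eval₂ φ (ic (w i) e) (B.map (ic v))) (eval₂ φ (ic (w i) e) (D.map (ic v)))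
  rw [hev, hev]

end Pool.Agent.H32.N6W
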