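import Pool.Agent.H32.N6W.Adj2
import Pool.Agent.H13.N6E.Base

/-!
# Two quadrics in `ℙ⁶`, all smooth intersections: the device, relative version
-/

set_option autoImplicit false

open Polynomial NumberField IsDedekindDomain Pool.Agent.H32.QC Pool.Agent.H34.N6
  Pool.Agent.H13.DEV Pool.Agent.H34.N6V

namespace Pool.Agent.H32.N6W

theorem dvf2 (hPSI : T_PSI) (hNRM : T_NRM) (hINA : T_INA) (hINB : T_INB)
    (hSGU : T_SGU) (hFIN : T_FIN) (hSPF : T_SPF) (hTHF : T_THF) (hALF : T_ALF) (hODF : T_ODF)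
    (k ι : Type) [Field k] [NumberField k] [Fintype ι]
    [Nonempty ι] (L : ι → Type) [∀ j, Field (L j)] [∀ j, NumberField (L j)]
    [∀ j, Algebra k (L j)] (P E : ι → k[X]) (D : k[X]) (e : ∀ j, L j)
    (R : ∀ (K : Type) [Field K] [NumberField K] [Algebra k K], Pl K → K → Prop)
    (S : Finset (Pl k)) (N : ℕ) (G : Pl k → k[X]) (ε : Pl k → ℝ)
    (hyp : HypF P E D R S N G ε) (hGen : ∀ j, Gen (P j) (e j))
    (hVC : ∀ s : Finset ι, IsSquare (∏ j ∈ s, (P j).resultant D) →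
      ∏ j ∈ s, sg D (e j) S G = 1) :
    ∃ (K : Type) (_ : Field K) (_ : NumberField K) (_ : Algebra k K) (θ : K) (G₀ : k[X]),
      Odd (Module.finrank k K) ∧ IntermediateField.adjoin k {θ} = ⊤ ∧
      aeval θ (∏ j, P j) ≠ 0 ∧ (∀ w, R K w θ) ∧ G₀.Monic ∧ G₀.natDegree = N ∧
      aeval θ G₀ = 0 ∧ ∀ v ∈ S, Close v (ε v) G₀ (G v) := by
  obtain ⟨S', G', ε', hyp', hSS, hag, hsg'⟩ :=
    adj2 hPSI hNRM hINA hINB hSGU hFIN k ι L P E D e R S N G ε hyp hGen hVC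
  obtain ⟨j₀⟩ := (inferInstance : Nonempty ι)
  have hP0 : ∏ j, P j ≠ 0 := Finset.prod_ne_zero_iff.2 fun j _ => (hyp.fam.mon j).ne_zero
  obtain ⟨p, hp⟩ := hSPF k (∏ j, P j) D S' hP0
  obtain ⟨G0, hout⟩ := hTHF k ι L P E D e S' N p G' ε' hyp'.fam hGen
    (fun j => Pool.Agent.H13.N6E.gen_nsq (hGen j) (hyp'.nsq j)) hyp'.good hyp'.real hyp'.le
    hp.prime hp.off (by
      intro v hv
      obtain ⟨h1, h2, h3, h4, -⟩ := hyp'.loc v hv
      refine ⟨h1, h2, h3, fun j => ?_⟩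
      apply Pool.Agent.H13.N6E.gen_ne (hGen j)
      exact h4.of_isCoprime_of_dvd_right (Finset.dvd_prod_of_mem P (Finset.mem_univ j))) hsg'
  obtain ⟨K, k1, k2, k3, θ, hodd, hadj, hθ⟩ := hODF k G0 (hout j₀).mon
    (by rw [(hout j₀).deg]; exact hyp'.odd)
  obtain ⟨h5, h6⟩ := hALF k ι L P E D e R S' S' N p G' G' ε' ε' G0 hyp' hGen subset_rfl hp
    (fun v _ => ⟨rfl, le_rfl⟩) hout K θ hadj hθ
  refine ⟨K, k1, k2, k3, θ, G0, hodd, hadj, h5, fun w => h6 w fun h => h, (hout j₀).mon,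
    (hout j₀).deg, hθ, ?_⟩
  intro v hv
  have h7 := (hout j₀).close v (hSS hv)
  rw [(hag v hv).1, (hag v hv).2] at h7
  exact h7

end Pool.Agent.H32.N6W
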