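import Pool.Agent.H32.N6W.Hyp
import Pool.Agent.H32.N6W.Dvf2
import Pool.Agent.H32.N6V.NFC
import Pool.Agent.H32.N6V.Mai

/-!
# Two quadrics in `ℙ⁶`, all smooth intersections: the theorem from the blocks
-/

set_option autoImplicit false

open Polynomial NumberField IsDedekindDomain Matrix Pool.Agent.H32.QC Pool.Agent.H34.N6
open Pool.Agent.H13.DEV Pool.Agent.H34.N6V Pool.Agent.H63.WT

namespace Pool.Agent.H32.N6W

theorem pf_DVF2 (hPSI : T_PSI) (hNRM : T_NRM) (hINA : T_INA) (hINB : T_INB)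
    (hSGU : T_SGU) (hFIN : T_FIN) (hSPF : T_SPF) (hTHF : T_THF) (hALF : T_ALF)
    (hODF : T_ODF) : T_DVF2 :=
  dvf2 hPSI hNRM hINA hINB hSGU hFIN hSPF hTHF hALF hODF

theorem pf_NF3 : T_NF3 := by
  intro k _ _ A B hA hB hsep hdeg
  obtain ⟨P, D, T, c, hPm, hPn, hPs, hD, -, hsq, hc, hT, h1, h0⟩ :=
    Pool.Agent.H32.N6V.nf2_basic hA hB hsep hdeg
  exact ⟨P, D, T, c, hPm, hPn, hPs, hD, hsq, hc, hT, h1, h0⟩

theorem pf_MAI3 (hNF : T_NF3) (hCORE : T_COR3) : T_MAI3 := by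
  intro k _ _ A B hA hB hsep hdeg hloc
  obtain ⟨P, D, Q, c, hPm, hPn, hPs, hPD, hsq, hc, hQ, h1, h0⟩ := hNF k A B hA hB hsep hdeg
  have h3 : LocCZ (gA P D 0) (gA P D 1) := by
    intro w
    have h4 := hloc w
    rw [← h1, ← h0]
    cases w with
    | inl v => exact Pool.Agent.H32.N6.map_cz (ic v) hQ hc h4
    | inr φ => exact Pool.Agent.H32.N6.map_cz φ hQ hc h4
  have h5 := hCORE k P D hPm hPn hPs hPD hsq h3
  rw [← h1, ← h0] at h5
  exact Pool.Agent.H32.N6.cz_swap ((Pool.Agent.H32.N6.cz_iff hQ hc).1 h5)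

theorem pf_COR3 (hODC : Pool.Agent.H32.SAB.T_ODC)
    (hSPL : T_SPL) (hF2 : T_F2S) (hSPF : T_SPF) (hGF : T_GF) (hEXA : T_EXA)
    (hFM3 : T_FM3) (hDRS : T_DRS) (hVCD : T_VCD) (hHYP : T_HYP) (hDVF : T_DVF2) : T_COR3 := by
  classical
  intro k _ _ P D hP h7 hsep hD hsq hloc
  obtain ⟨ι, i1, -, Pj, Ej, hfam, hprod⟩ := hFM3 k P hP hsep
  choose L a1 a2 a3 e hGen hfr using fun j => hEXA k (Pj j) (hfam.mon j) (hfam.irr j)
  obtain ⟨J, hJ⟩ : ∃ J : Finset ι, ∀ j, j ∈ J ↔ ¬ SqMod (Pj j) D :=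
    ⟨Finset.univ.filter fun j => ¬ SqMod (Pj j) D, fun j => by simp⟩
  have hdvd : ∀ j, Pj j ∣ P := by
    intro j
    rw [← hprod]
    exact Finset.dvd_prod_of_mem Pj (Finset.mem_univ j)
  by_cases hJ0 : J = ∅
  · apply pf_SQZ k P D hP h7 hD
    rw [← hprod]
    apply sqMod_prod
    · intro j _
      by_contra hcon
      have h1 := (hJ j).2 hcon
      rw [hJ0] at h1
      exact Finset.notMem_empty _ h1
    · intro i _ j _ hij
      exact fam_coprime hfam hij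
  obtain ⟨j₀, hj₀⟩ := Finset.nonempty_iff_ne_empty.2 hJ0
  have hne : Nonempty J := ⟨⟨j₀, hj₀⟩⟩
  have hfamJ : Fam (fun j : J => Pj j) (fun j : J => Ej j) :=
    ⟨fun j => hfam.mon j, fun j => hfam.irr j, fun j => hfam.one j, fun i j hij =>
      hfam.zero i j fun h => hij (Subtype.ext h)⟩
  have hndv : ∀ j, ¬ Pj j ∣ D := fun j hj =>
    (hfam.irr j).not_isUnit (hD.isUnit_of_dvd' (hdvd j) hj)
  obtain ⟨v₀, -⟩ := exists_place (K := k) 2 Nat.prime_two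
  have hfin1 : {v : FPl k | ¬ GoodAt P D v}.Finite := bad_fin hsep hD
  have hfin2 : {v : FPl k | ¬ GoodF (fun j : J => Pj j) (fun j : J => Ej j) D v}.Finite :=
    hGF k J _ _ D hfamJ fun j => hndv j
  have hfin : ((Sum.inl : FPl k → Pl k) '' ({v : FPl k | ¬ GoodAt P D v} ∪
      {v : FPl k | ¬ GoodF (fun j : J => Pj j) (fun j : J => Ej j) D v} ∪ {v₀})).Finite :=
    ((hfin1.union hfin2).union (Set.finite_singleton v₀)).image _
  obtain ⟨S, N, G, ε, hBS, hreal, hNodd, hN7, hG, hVC⟩ :=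
    hVCD k ι L P D Pj e _ hfin hP h7 hsep hD (hDRS k P D hP h7 hsep hD hsq)
      (fun j => ⟨hfam.mon j, hfam.irr j, hGen j⟩) hprod hloc
  have hgood : ∀ v : FPl k, Sum.inl v ∉ S → GoodAt P D v ∧
      GoodF (fun j : J => Pj j) (fun j : J => Ej j) D v := by
    intro v hv
    constructor
    · by_contra hcon
      exact hv (hBS _ ⟨v, Or.inl (Or.inl hcon), rfl⟩)
    · by_contra hcon
      exact hv (hBS _ ⟨v, Or.inl (Or.inr hcon), rfl⟩)
  have hyp := hHYP k ι P D Pj Ej J S N G ε hP h7 hsep hD hsq hfam hprod hJ hgood hreal hNodd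
    hN7 (fun v hv => by
      obtain ⟨h1, h2, h3, h4, h5, -⟩ := hG v hv
      exact ⟨h1, h2, h3, h4, h5⟩)
  obtain ⟨K, k1, k2, k3, θ, G₀, hodd, hgen, hQ, hR, hG1, hG2, hG3, hG4⟩ :=
    hDVF k J (fun j : J => L j) (fun j : J => Pj j) (fun j : J => Ej j) D (fun j : J => e j)
      _ S N G ε hyp (fun j => hGen j) (by
      intro s hs
      have h1 := hVC (s.map (Function.Embedding.subtype _))
      rw [Finset.prod_map, Finset.prod_map] at h1
      exact h1 hs)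
  have hv₀ : Sum.inl v₀ ∈ S := hBS _ ⟨v₀, Or.inr rfl, rfl⟩
  obtain ⟨-, -, -, -, -, hcl⟩ := hG _ hv₀
  have hcop : IsCoprime G₀ P := hcl G₀ hG1 hG2 (hG4 _ hv₀)
  have hne' : aeval θ P ≠ 0 := by
    intro h0
    obtain ⟨a, b, hab⟩ := hcop
    have h1 := congrArg (aeval θ) hab
    rw [map_add, map_mul, map_mul, hG3, h0, mul_zero, mul_zero, add_zero, map_one] at h1
    exact zero_ne_one h1
  obtain ⟨p, hp⟩ := hSPF k P D ∅ hP.ne_zero
  obtain ⟨w₁, hw₁⟩ := exists_place (K := K) p hp.prime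
  obtain ⟨hs1, hs2⟩ := hp.spl K w₁ hw₁
  exact final_part hODC hSPL hF2 hP h7 hsep hD hloc K θ w₁ hodd hne' (fun w => hR w hne')
    hs1 hs2

end Pool.Agent.H32.N6W
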