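import Pool.Agent.H32.N6W.Vcd

/-!
# Two quadrics in `ℙ⁶`, all smooth intersections: the choice of the local data, continued
-/

set_option autoImplicit false

open Polynomial NumberField IsDedekindDomain Matrix Pool.Agent.H32.QC Pool.Agent.H34.N6
open Pool.Agent.H13.DEV Pool.Agent.H34.N6V Pool.Agent.H63.WT

namespace Pool.Agent.H32.N6W

section att

variable {k ι : Type} [Field k] [Fintype ι] [DecidableEq ι] {P D : k[X]} {Pj : ι → k[X]}

theorem hpr_map_prod (hHPM : T_HPM) {F : Type} [Field F] (hPj : ∀ j, (Pj j).Monic)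
    (φ : k →+* F) (s : Finset ι) (A B : F[X]) :
    hpr ((∏ j ∈ s, Pj j).map φ) A B = ∏ j ∈ s, hpr ((Pj j).map φ) A B := by
  rw [Polynomial.map_prod]
  exact hHPM F ι s (fun j => (Pj j).map φ) A B fun j _ => ((hPj j).map φ).ne_zero

theorem att_gen (hLOQ : T_LOQ) (hHPM : T_HPM) {F : Type} [Field F] (φ : k →+* F)
    {e : WG F → ℤ} (hLX : LocX F e) (hP : P.Monic) (h7 : P.natDegree = 7)
    (hsep : P.Separable) (hD : IsCoprime P D) (hPj : ∀ j, (Pj j).Monic)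
    (hprod : ∏ j, Pj j = P) (s : Finset ι) (h1 : IsSquare ((∏ j ∈ s, Pj j).resultant D))
    (h2 : IsSquare ((∏ j ∈ sᶜ, Pj j).resultant D))
    (hcz : CZ ((gA P D 0).map φ) ((gA P D 1).map φ)) {c : ℤ}
    (hq : qm e ((∏ j ∈ s, Pj j).map φ) ((∏ j ∈ sᶜ, Pj j).map φ) (D.map φ) = c) :
    ∃ x : ι → ℤ, Att (P.map φ) (D.map φ) (fun j => (Pj j).map φ) x ∧ ∏ j ∈ s, x j = c := by
  have hPQ : (∏ j ∈ s, Pj j) * ∏ j ∈ sᶜ, Pj j = P := by
    rw [Finset.prod_mul_prod_compl, hprod]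
  have hm : ∀ t : Finset ι, (∏ j ∈ t, Pj j).Monic := fun t =>
    monic_prod_of_monic _ _ fun j _ => hPj j
  have hPQ' : (∏ j ∈ s, Pj j).map φ * (∏ j ∈ sᶜ, Pj j).map φ = P.map φ := by
    rw [← Polynomial.map_mul, hPQ]
  obtain ⟨A, hA, hA2⟩ := hLOQ F e hLX ((∏ j ∈ s, Pj j).map φ) ((∏ j ∈ sᶜ, Pj j).map φ)
    (D.map φ) ((hm s).map φ) ((hm sᶜ).map φ) (by rw [hPQ']; exact hsep.map)
    (by rw [hPQ', hP.natDegree_map, h7])
    (by rw [hPQ']; exact hD.map (Polynomial.mapRingHom φ))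
    (by rw [res_map]; exact isSquare_map' φ h1) (by rw [res_map]; exact isSquare_map' φ h2)
    (by rw [hPQ', gA_map hP, gA_map hP]; exact hcz)
  rw [hPQ'] at hA
  refine ⟨fun j => hpr ((Pj j).map φ) A (D.map φ), ⟨1, fun _ => A, odd_one, fun _ => hA, ?_⟩, ?_⟩
  · intro j
    rw [Fin.prod_univ_one]
  · rw [← hq, ← hA2, hpr_map_prod hHPM hPj]

theorem att_real [CharZero k] (hLOR : T_LOR) (hHPM : T_HPM) (φ : k →+* ℝ)
    {e : WG ℝ → ℤ} (hLR : LocR e) (hP : P.Monic) (h7 : P.natDegree = 7)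
    (hsep : P.Separable) (hD : IsCoprime P D) (hPj : ∀ j, (Pj j).Monic)
    (hprod : ∏ j, Pj j = P) (s : Finset ι) (h1 : IsSquare ((∏ j ∈ s, Pj j).resultant D))
    (h2 : IsSquare ((∏ j ∈ sᶜ, Pj j).resultant D))
    (hcz : CZ ((gA P D 0).map φ) ((gA P D 1).map φ)) {c : ℤ}
    (hq : qm e ((∏ j ∈ s, Pj j).map φ) ((∏ j ∈ sᶜ, Pj j).map φ) (D.map φ) = c) :
    ∃ x : ι → ℤ, AttR P D Pj φ x ∧ ∏ j ∈ s, x j = c := by
  have hPQ : (∏ j ∈ s, Pj j) * ∏ j ∈ sᶜ, Pj j = P := by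
    rw [Finset.prod_mul_prod_compl, hprod]
  have hm : ∀ t : Finset ι, (∏ j ∈ t, Pj j).Monic := fun t =>
    monic_prod_of_monic _ _ fun j _ => hPj j
  have hPQ' : (∏ j ∈ s, Pj j).map φ * (∏ j ∈ sᶜ, Pj j).map φ = P.map φ := by
    rw [← Polynomial.map_mul, hPQ]
  obtain ⟨x, η, hη, hx⟩ := hLOR e hLR ((∏ j ∈ s, Pj j).map φ) ((∏ j ∈ sᶜ, Pj j).map φ)
    (D.map φ) ((hm s).map φ) ((hm sᶜ).map φ) (by rw [hPQ']; exact hsep.map)
    (by rw [hPQ', hP.natDegree_map, h7])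
    (by rw [hPQ']; exact hD.map (Polynomial.mapRingHom φ))
    (by rw [res_map]; exact isSquare_map' φ h1) (by rw [res_map]; exact isSquare_map' φ h2)
    (by rw [hPQ', gA_map hP, gA_map hP]; exact hcz)
  rw [hPQ'] at hx
  obtain ⟨a, ha⟩ := exists_near φ x hη
  obtain ⟨ha1, -, ha3⟩ := hx (φ a) ha
  refine ⟨fun j => hpr ((Pj j).map φ) ((X - C a).map φ) (D.map φ),
    ⟨1, fun _ => a, η - |φ a - x|, odd_one, sub_pos.2 ha, ?_, ?_, ?_⟩, ?_⟩
  · intro _ h0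
    apply ha1
    rw [Polynomial.eval_map_apply, h0, map_zero]
  · intro _ t ht
    refine (hx t ?_).2.1
    calc |t - x| = |(t - φ a) + (φ a - x)| := by ring_nf
      _ ≤ |t - φ a| + |φ a - x| := abs_add_le _ _
      _ < η := by linarith
  · intro j
    rw [Fin.prod_univ_one]
  · rw [← hq, ← ha3, hpr_map_prod hHPM hPj]
    simp only [Polynomial.map_sub, Polynomial.map_X, Polynomial.map_C]

end att

theorem pf_VCD (hPF : ∀ (K : Type) [Field K] [NumberField K], ProdFormula K)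
    (hLXF : T_LXF) (hLXR : T_LXR) (hLOQ : T_LOQ) (hLOR : T_LOR) (hQPF : T_QPF)
    (hPCF : T_PCF) (hPCR : T_PCR) (hSGP : T_SGP) (hHPM : T_HPM) (hCPN : T_CPN) : T_VCD := by
  classical
  intro k ι _ _ _ _ L _ _ _ P D Pj e B hB hP h7 hsep hD hres hPj hprod hloc
  have hm : ∀ t : Finset ι, (∏ j ∈ t, Pj j).Monic := fun t =>
    monic_prod_of_monic _ _ fun j _ => (hPj j).1
  have hdvd : ∀ j, Pj j ∣ P := by
    intro j
    rw [← hprod]
    exact Finset.dvd_prod_of_mem Pj (Finset.mem_univ j)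
  have hr0 : ∀ j, (Pj j).resultant D ≠ 0 := fun j =>
    resultant_ne_zero _ _ (hD.of_isCoprime_of_dvd_left (hdvd j))
  have hrp : ∀ t : Finset ι, (∏ j ∈ t, Pj j).resultant D = ∏ j ∈ t, (Pj j).resultant D := by
    intro t
    refine resultant_prod_left t Pj D D.natDegree ?_ le_rfl
    rw [Finset.prod_ne_zero_iff]
    intro j _
    rw [(hPj j).1.leadingCoeff]
    exact one_ne_zero
  have hru : IsSquare (∏ j, (Pj j).resultant D) := by
    rw [← hrp, hprod]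
    exact hres
  obtain ⟨I, hI⟩ : ∃ I : Set (Finset ι), ∀ s, s ∈ I ↔ IsSquare (∏ j ∈ s, (Pj j).resultant D) :=
    ⟨{s | IsSquare (∏ j ∈ s, (Pj j).resultant D)}, fun s => Iff.rfl⟩
  have hI1 : ∀ s ∈ I, IsSquare ((∏ j ∈ s, Pj j).resultant D) := fun s hs => by
    rw [hrp]
    exact (hI s).1 hs
  have hI2 : ∀ s ∈ I, IsSquare ((∏ j ∈ sᶜ, Pj j).resultant D) := fun s hs => by
    rw [hrp]
    exact sq_compl hr0 ((hI s).1 hs) hru
  have hI0 : ∅ ∈ I := by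
    rw [hI, Finset.prod_empty]
    exact ⟨1, (one_mul 1).symm⟩
  have hISD : ∀ s ∈ I, ∀ t ∈ I, symmDiff s t ∈ I := fun s hs t ht => by
    rw [hI]
    exact sq_symmDiff hr0 ((hI s).1 hs) ((hI t).1 ht)
  -- the constants as products of symbols
  have hQ : ∀ s : Finset ι, ∃ (m : ℕ) (x y : Fin m → k), s ∈ I → (∀ i, x i ≠ 0 ∧ y i ≠ 0) ∧
      ∀ (F : Type) [Field F] (φ : k →+* F) (e : WG F → ℤ), EInv F e →
        qm e ((∏ j ∈ s, Pj j).map φ) ((∏ j ∈ sᶜ, Pj j).map φ) (D.map φ) =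
          ∏ i, hil (φ (x i)) (φ (y i)) := by
    intro s
    by_cases hs : s ∈ I
    · have hPQ : (∏ j ∈ s, Pj j) * ∏ j ∈ sᶜ, Pj j = P := by
        rw [Finset.prod_mul_prod_compl, hprod]
      obtain ⟨m, x, y, h1, h2⟩ := hQPF k (∏ j ∈ s, Pj j) (∏ j ∈ sᶜ, Pj j) D (hm s) (hm sᶜ)
        (by rw [hPQ]; exact hsep) (by rw [hPQ]; exact hD) (hI1 s hs) (hI2 s hs)
      exact ⟨m, x, y, fun _ => ⟨h1, h2⟩⟩
    · exact ⟨0, fun _ => 0, fun _ => 0, fun h => absurd h hs⟩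
  choose m X Y hXY using hQ
  -- the set of places
  have hfinU : (⋃ s : Finset ι, ⋃ _ : s ∈ I, ⋃ i : Fin (m s),
      {v : Pl k | hs v (X s i) (Y s i) ≠ 1}).Finite := by
    apply Set.finite_iUnion
    intro s
    apply Set.finite_iUnion
    intro hs
    apply Set.finite_iUnion
    intro i
    exact (hPF k (X s i) (Y s i) ((hXY s hs).1 i).1 ((hXY s hs).1 i).2).1
  have hfinS : (B ∪ (⋃ s : Finset ι, ⋃ _ : s ∈ I, ⋃ i : Fin (m s),
      {v : Pl k | hs v (X s i) (Y s i) ≠ 1}) ∪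
      Set.range (Sum.inr : (k →+* ℝ) → Pl k)).Finite :=
    (hB.union hfinU).union (Set.finite_range _)
  obtain ⟨S, hS⟩ : ∃ S : Finset (Pl k), ∀ v, v ∈ S ↔ v ∈ (B ∪ (⋃ s : Finset ι, ⋃ _ : s ∈ I,
      ⋃ i : Fin (m s), {v : Pl k | hs v (X s i) (Y s i) ≠ 1}) ∪
      Set.range (Sum.inr : (k →+* ℝ) → Pl k)) := ⟨hfinS.toFinset, fun v => by simp⟩
  have hSB : ∀ v ∈ B, v ∈ S := fun v hv => (hS v).2 (Or.inl (Or.inl hv))
  have hSR : ∀ φ : k →+* ℝ, Sum.inr φ ∈ S := fun φ => (hS _).2 (Or.inr ⟨φ, rfl⟩)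
  have hS1 : ∀ s ∈ I, ∀ i : Fin (m s), ∀ v, v ∉ S → hs v (X s i) (Y s i) = 1 := by
    intro s hs' i v hv
    by_contra hcon
    apply hv
    rw [hS]
    left
    right
    simp only [Set.mem_iUnion]
    exact ⟨s, hs', i, hcon⟩
  have hq1 : ∀ s ∈ I, ∏ v ∈ S, ∏ i, hs v (X s i) (Y s i) = 1 := by
    intro s hs'
    rw [Finset.prod_comm]
    apply Finset.prod_eq_one
    intro i _
    rw [← (hPF k (X s i) (Y s i) ((hXY s hs').1 i).1 ((hXY s hs').1 i).2).2]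
    symm
    apply finprod_eq_prod_of_mulSupport_subset
    intro v hv
    by_contra hcon
    exact hv (hS1 s hs' i v hcon)
  -- the attained vectors
  let Z : Pl k → Set (ι → ℤ) := fun v => match v with
    | .inl v => {x | Att (P.map (ic v)) (D.map (ic v)) (fun j => (Pj j).map (ic v)) x}
    | .inr φ => {x | AttR P D Pj φ x}
  have hZ1 : ∀ v, ∀ x ∈ Z v, ∀ j, x j = 1 ∨ x j = -1 := by
    intro v x hx j
    cases v with
    | inl v => exact Att.sgn hx j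
    | inr φ => exact AttR.sgn hx j
  have hZ3 : ∀ v, ∀ x ∈ Z v, ∀ y ∈ Z v, ∀ z ∈ Z v, x * y * z ∈ Z v := by
    intro v x hx y hy z hz
    cases v with
    | inl v => exact Att.mul3 hx hy hz
    | inr φ => exact AttR.mul3 hx hy hz
  have hZq : ∀ s ∈ I, ∀ v, ∃ x ∈ Z v, ∏ j ∈ s, x j = ∏ i, hs v (X s i) (Y s i) := by
    intro s hs' v
    cases v with
    | inl v =>
      obtain ⟨e', he'⟩ := hLXF k v
      exact att_gen hLOQ hHPM (ic v) he' hP h7 hsep hD (fun j => (hPj j).1) hprod s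
        (hI1 s hs') (hI2 s hs') (hloc (Sum.inl v)) ((hXY s hs').2 _ (ic v) e' he'.inv)
    | inr φ =>
      obtain ⟨e', he'⟩ := hLXR
      exact att_real hLOR hHPM φ he' hP h7 hsep hD (fun j => (hPj j).1) hprod s
        (hI1 s hs') (hI2 s hs') (hloc (Sum.inr φ)) ((hXY s hs').2 _ φ e' he'.inv)
  have hZne : ∀ v ∈ S, (Z v).Nonempty := by
    intro v _
    obtain ⟨x, hx, -⟩ := hZq ∅ hI0 v
    exact ⟨x, hx⟩
  obtain ⟨x, hx1, hx2⟩ := Pool.Agent.H34.N6W.selS S Z (fun v _ => hZ1 v) hZne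
    (fun v _ => hZ3 v) I hI0 hISD (by
      intro s hs'
      choose x hx1 hx2 using hZq s hs'
      refine ⟨x, fun v _ => hx1 v, ?_⟩
      rw [← hq1 s hs']
      exact Finset.prod_congr rfl fun v _ => hx2 v)
  -- the polynomials
  have hPck : ∀ v : Pl k, ∃ a : ℕ, v ∈ S → Odd a ∧
      ∀ m : ℕ, Odd m → Pck L P D e v (x v) (a * m) := by
    intro v
    by_cases hv : v ∈ S
    · cases v with
      | inl v =>
        obtain ⟨a, ha⟩ := hPCF k ι L P D Pj e v (x (Sum.inl v)) hP h7 hsep hD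
          (fun j => ⟨(hPj j).1, (hPj j).2.2, hdvd j⟩) (hx1 _ hv)
        exact ⟨a, fun _ => ha⟩
      | inr φ =>
        obtain ⟨a, ha⟩ := hPCR k ι L P D Pj e φ (x (Sum.inr φ)) hP h7 hsep hD
          (fun j => ⟨(hPj j).1, (hPj j).2.2, hdvd j⟩) (hx1 _ hv)
        exact ⟨a, fun _ => ha⟩
    · exact ⟨0, fun h => absurd h hv⟩
  choose a ha using hPck
  have hodd : ∀ T : Finset (Pl k), T ⊆ S → Odd (∏ v ∈ T, a v) := by
    intro T
    induction T using Finset.induction_on with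
    | empty =>
      intro _
      rw [Finset.prod_empty]
      exact odd_one
    | insert v T hv ih =>
      intro hT
      rw [Finset.prod_insert hv]
      exact (ha v (hT (Finset.mem_insert_self v T))).1.mul
        (ih fun u hu => hT (Finset.mem_insert_of_mem hu))
  have h7o : Odd 7 := ⟨3, rfl⟩
  have hall : ∀ v : Pl k, ∃ (G : k[X]) (ε : ℝ), v ∈ S → 0 < ε ∧ G.Monic ∧
      G.natDegree = 7 * ∏ v ∈ S, a v ∧ IsCoprime G P ∧
      NearOK (SplitAt P D) v (7 * ∏ v ∈ S, a v) G ε ∧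
      (∀ G' : k[X], G'.Monic → G'.natDegree = 7 * ∏ v ∈ S, a v → Close v ε G' G →
        IsCoprime G' P) ∧ ∀ j, th D (e j) v G = x v j := by
    intro v
    by_cases hv : v ∈ S
    · have h1 : 7 * ∏ v ∈ S, a v = a v * (7 * ∏ v ∈ S.erase v, a v) := by
        rw [← Finset.mul_prod_erase S a hv]
        ring
      obtain ⟨G, ε, g1, g2, g3, g4, g5, g6⟩ :=
        (ha v hv).2 (7 * ∏ v ∈ S.erase v, a v) (h7o.mul (hodd _ (Finset.erase_subset v S)))
      rw [← h1] at g3 g5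
      obtain ⟨ε', h2, h3⟩ := hCPN k v P G hP g2 g4
      refine ⟨G, min ε ε', fun _ => ⟨lt_min g1 h2, g2, g3, g4, ?_, ?_, g6⟩⟩
      · intro G' hG1 hG2 hG3
        exact g5 G' hG1 hG2 (close_mono (min_le_left _ _) hG3)
      · intro G' hG1 hG2 hG3
        exact h3 G' hG1 (hG2.trans g3.symm) (close_mono (min_le_right _ _) hG3)
    · exact ⟨0, 0, fun h => absurd h hv⟩
  choose G ε hG using hall
  refine ⟨S, 7 * ∏ v ∈ S, a v, G, ε, hSB, hSR, h7o.mul (hodd S subset_rfl), ?_, ?_, ?_⟩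
  · rw [h7]
    exact Nat.le_mul_of_pos_right 7 (hodd S subset_rfl).pos
  · intro v hv
    obtain ⟨g1, g2, g3, g4, g5, g6, -⟩ := hG v hv
    exact ⟨g1, g2, g3, g4, g5, g6⟩
  · intro s hs'
    rw [← hx2 s ((hI s).2 hs'), Finset.prod_comm]
    apply Finset.prod_congr rfl
    intro j _
    rw [hSGP]
    apply Finset.prod_congr rfl
    intro v hv
    exact (hG v hv).2.2.2.2.2.2 j

end Pool.Agent.H32.N6W
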