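import Pool.Agent.H32.N6V.All2
import Pool.Agent.H32.N6W.Cor3
import Pool.Agent.H32.N6W.Vcd2
import Pool.Agent.H32.N6W.Adf
import Pool.Agent.H32.N6W.Fin3
import Pool.Agent.H79.N6W.HPM
import Pool.Agent.H97.N6W.HMS
import Pool.Agent.H46.N6W.UPS
import Pool.Agent.H4.N6W.FM3
import Pool.Agent.H4.N6W.APF
import Pool.Agent.H86.N6W.DSU
import Pool.Agent.H38.N6W.DIN
import Pool.Agent.H34.N6W.DCO
import Pool.Agent.H23.N6W.DEC
import Pool.Agent.H49.N6W.HPC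
import Pool.Agent.H91.N6W.THM
import Pool.Agent.H91.N6W.SGP
import Pool.Agent.H4.N6W.CPN
import Pool.Agent.H67.N6W.NER
import Pool.Agent.H34.N6W.PCF
import Pool.Agent.H35.N6W.PCR
import Pool.Agent.H14.N6W.DRS
import Pool.Agent.H46.N6W.REC
import Pool.Agent.H59.N6W.QPF
import Pool.Agent.H14.N6W.LOQ
import Pool.Agent.H13.N6W.LOR
import Pool.Agent.H1.N6WX.LXF
import Pool.Agent.H51.N6W.LXR

/-!
# Two quadrics in `ℙ⁶`, all smooth intersections: assembly of the global part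
-/

set_option autoImplicit false

namespace Pool.Agent.H32.N6W.All3

open Pool.Agent.H13.DEV Pool.Agent.H13.N6E Pool.Agent.H34.N6 Pool.Agent.H34.N6V
open Pool.Agent.H63.WT (T_EXF T_LOCF T_TOTF T_EXR T_LOCR T_CLS T_ONE T_I2D T_I2A T_PFI T_BCH
  T_W0 T_GMM)

theorem hpm : T_HPM := Pool.Agent.H79.N6W.pf_HPM
theorem hms : T_HMS := Pool.Agent.H97.N6W.pf_HMS
theorem ups : T_UPS := Pool.Agent.H46.N6W.pf_UPS
theorem fm3 : T_FM3 := Pool.Agent.H4.N6W.pf_FM3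
theorem apf : T_APF := Pool.Agent.H4.N6W.pf_APF Pool.Agent.H65.N6P.p_APX
theorem dsu : T_DSU := Pool.Agent.H86.N6W.pf_DSU Pool.Agent.H23.QCF.LA.adc
theorem din : T_DIN := Pool.Agent.H38.N6W.pf_DIN Pool.Agent.H23.QCF.LA.adc dUNQ
theorem dco : T_DCO := Pool.Agent.H34.N6W.pf_DCO dTRI
theorem dec : T_DEC := Pool.Agent.H23.N6W.pf_DEC dsu din dco dFIN
theorem adf : T_ADF := pf_ADF dec hms hpm
theorem hpc : T_HPC := Pool.Agent.H49.N6W.pf_HPC dec hms hpm Pool.Agent.H23.QCF.LA.opv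
theorem adr : T_ADR := Pool.Agent.H23.N6W.pf_ADR hms hpm
theorem thm : T_THM := Pool.Agent.H91.N6W.pf_THM Pool.Agent.H23.QCF.LA.pbm
  Pool.Agent.H23.QCF.LA.psg dFIN
theorem sgp : T_SGP := Pool.Agent.H91.N6W.pf_SGP dFIN
theorem cpn : T_CPN := Pool.Agent.H4.N6W.pf_CPN
theorem ner : T_NER := Pool.Agent.H67.N6W.pf_NER
theorem pcf : T_PCF := Pool.Agent.H34.N6W.pf_PCF Pool.Agent.H23.QCF.LA.adc
  Pool.Agent.H65.N6P.p_NEA Pool.Agent.H65.N6P.p_OPS apf ups adf hpc thm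
theorem pcr : T_PCR := Pool.Agent.H35.N6W.pf_PCR ner adr thm
theorem drs : T_DRS := Pool.Agent.H14.N6W.pf_DRS
theorem loq : T_LOQ := Pool.Agent.H14.N6W.pf_LOQ hpm
theorem lor : T_LOR := Pool.Agent.H13.N6W.pf_LOR hpm
theorem hyp : T_HYP := pf_HYP Pool.Agent.H23.QCF.LA.adc dHEN
  Pool.Agent.H5.QH.All.split7 Pool.Agent.H32.N6.AllB.gb1 Pool.Agent.H32.N6.AllB.gb2
  Pool.Agent.H32.N6.AllB.gb3
theorem dvf : T_DVF2 := pf_DVF2 Pool.Agent.H32.N6V.All2.psi Pool.Agent.H32.N6V.All2.nrm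
  Pool.Agent.H32.N6V.All2.ina Pool.Agent.H32.N6V.All2.inb Pool.Agent.H32.N6V.All2.sgu dFIN
  Pool.Agent.H32.N6V.All2.spf Pool.Agent.H32.N6V.All2.thf Pool.Agent.H32.N6V.All2.alf dODF

section

variable (hEXF : T_EXF) (hLOCF : T_LOCF) (hTOTF : T_TOTF) (hEXR : T_EXR) (hLOCR : T_LOCR)
  (hCLS : T_CLS) (hONE : T_ONE) (hI2D : T_I2D) (hI2A : T_I2A) (hPFI : T_PFI) (hBCH : T_BCH)
  (hW0 : T_W0) (hPHI : Pool.Agent.H63.WT.T_PHI) (hGMM : T_GMM)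

include hEXF hLOCF hTOTF hEXR hLOCR hCLS hONE hI2D hI2A hPFI hBCH hW0 hPHI hGMM

theorem vcd : T_VCD :=
  pf_VCD (fun K _ _ => Pool.Agent.H23.QCF.All.prodFormula K)
    (Pool.Agent.H1.N6W.pf_LXF Pool.Agent.H23.QCF.LA.adc hEXF hLOCF hTOTF)
    (Pool.Agent.H51.N6W.pf_LXR hEXR hLOCR) loq lor
    (Pool.Agent.H59.N6W.pf_QPF
      (Pool.Agent.H46.N6W.pf_REC hCLS hONE hI2D hI2A hPFI hBCH hW0) hPHI hGMM hCLS)
    pcf pcr sgp hpm cpn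

theorem cor3 : T_COR3 :=
  pf_COR3 Pool.Agent.H32.N6.AllIrr.odc Pool.Agent.H5.QH.All.split7
    Pool.Agent.H18.N6F.All.f2s Pool.Agent.H32.N6V.All2.spf Pool.Agent.H32.N6V.All2.gf dEXA
    fm3 drs (vcd hEXF hLOCF hTOTF hEXR hLOCR hCLS hONE hI2D hI2A hPFI hBCH hW0 hPHI hGMM)
    hyp dvf

theorem mai3 : T_MAI3 := pf_MAI3 pf_NF3
  (cor3 hEXF hLOCF hTOTF hEXR hLOCR hCLS hONE hI2D hI2A hPFI hBCH hW0 hPHI hGMM)

end

end Pool.Agent.H32.N6W.All3
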