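import Pool.Agent.H63.WT.Defs
import Pool.Agent.H34.N6V.TargetsN
import Pool.Agent.H65.N6P.Targets

/-!
# Two quadrics in `ℙ⁶`, all smooth intersections: definitions of the global part
-/

set_option autoImplicit false

open Polynomial NumberField IsDedekindDomain Matrix Pool.Agent.H32.QC Pool.Agent.H34.N6
open Pool.Agent.H13.DEV Pool.Agent.H34.N6V Pool.Agent.H63.WT

namespace Pool.Agent.H32.N6W

/-- an effective cycle of odd degree at which the form is split -/
structure LGood {F : Type} [Field F] (P D A : F[X]) : Prop where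
  mon : A.Monic
  sep : A.Separable
  odd : Odd A.natDegree
  cop : IsCoprime A P
  spl : ∀ T : F[X], T.Monic → Irreducible T → T ∣ A → SpR P D T

/-- the constant of the class of `P1`, any parity of the degree -/
noncomputable def qm {F : Type} [Field F] (e : WG F → ℤ) (P1 P2 D : F[X]) : ℤ :=
  if Even P1.natDegree then e (cls (Phi P1 P2 D))
  else e (cls (Phi P2 P1 D)) * e (cls (Phi (P1 * P2) 1 D))

/-- the signs attained by the products of an odd number of local polynomials -/
def Att {F ι : Type} [Field F] (P D : F[X]) (Pj : ι → F[X]) (x : ι → ℤ) : Prop :=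
  ∃ (n : ℕ) (A : Fin n → F[X]), Odd n ∧ (∀ i, LGood P D (A i)) ∧
    ∀ j, x j = ∏ i, hpr (Pj j) (A i) D

/-- the signs attained by the products of an odd number of linear polynomials, real places -/
def AttR {k ι : Type} [Field k] (P D : k[X]) (Pj : ι → k[X]) (v : k →+* ℝ) (x : ι → ℤ) :
    Prop :=
  ∃ (n : ℕ) (c : Fin n → k) (η : ℝ), Odd n ∧ 0 < η ∧ (∀ i, eval (c i) P ≠ 0) ∧
    (∀ i, ∀ t : ℝ, |t - v (c i)| < η → TI (ft (P.map v) (D.map v) t) 3) ∧
    ∀ j, x j = ∏ i, hpr ((Pj j).map v) ((X - C (c i)).map v) (D.map v)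

/-- the product of the symbols over the places above `v` -/
noncomputable def th {k L : Type} [Field k] [NumberField k] [Field L] [NumberField L]
    [Algebra k L] (D : k[X]) (e : L) (v : Pl k) (G : k[X]) : ℤ :=
  ∏ᶠ (w : Pl L) (_ : bel (k := k) w = v), hs w (aeval e G) (aeval e D)

/-- polynomials of degree `N` over `k` near which the form is split, with given signs -/
def Pck {k ι : Type} [Field k] [NumberField k] (L : ι → Type) [∀ j, Field (L j)]
    [∀ j, NumberField (L j)] [∀ j, Algebra k (L j)] (P D : k[X]) (e : ∀ j, L j) (v : Pl k)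
    (x : ι → ℤ) (N : ℕ) : Prop :=
  ∃ (G : k[X]) (ε : ℝ), 0 < ε ∧ G.Monic ∧ G.natDegree = N ∧ IsCoprime G P ∧
    NearOK (SplitAt P D) v N G ε ∧ ∀ j, th D (e j) v G = x j

/-- the places above `v` and the factors of `P` over the completion -/
structure Dec {k L : Type} [Field k] [NumberField k] [Field L] [NumberField L] [Algebra k L]
    (P : k[X]) (e : L) (v : FPl k) (T : Type) [Fintype T] (w : T → FPl L)
    (p : T → (v.adicCompletion k)[X]) : Prop where
  inj : Function.Injective w
  mem : ∀ u : FPl L, u.under (𝓞 k) = v ↔ ∃ i, w i = u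
  irr : ∀ i, (p i).Monic ∧ Irreducible (p i)
  prod : P.map (ic v) = ∏ i, p i
  ev : ∀ i, ∃ φ : v.adicCompletion k →+* (w i).adicCompletion L, Continuous φ ∧
    (∀ x : k, φ (ic v x) = kc k (w i) x) ∧
    (∀ y, ∃ Q : (v.adicCompletion k)[X], eval₂ φ (ic (w i) e) Q = y) ∧
    ∀ Q : (v.adicCompletion k)[X], eval₂ φ (ic (w i) e) Q = 0 ↔ p i ∣ Q

end Pool.Agent.H32.N6W
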