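import Pool.Agent.H59.N6V.VGEN

/-! Signs, relative version: the vectors which are orthogonal to all relations. -/

set_option autoImplicit false

namespace Pool.Agent.H32.N6W

open Pool.Agent.H59.N6V

/-- signs orthogonal to all the relations between the vectors of signs are products of some
of them -/
theorem gen_rel (ι T : Type) [Fintype ι] (ψ : T → ι → ℤ)
    (hψ : ∀ v j, ψ v j = 1 ∨ ψ v j = -1) (π : ι → ℤ) (hπ : ∀ j, π j = 1 ∨ π j = -1)
    (hs : ∀ s : Finset ι, (∀ v, ∏ j ∈ s, ψ v j = 1) → ∏ j ∈ s, π j = 1) :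
    ∃ A : Finset T, ∀ j, ∏ v ∈ A, ψ v j = π j := by
  classical
  let x : T → ι → ZMod 2 := fun v j => ex2 (ψ v j)
  have hy : (fun j => ex2 (π j)) ∈ Submodule.span (ZMod 2) (Set.range x) := by
    by_contra hne
    obtain ⟨f, hf0, hf⟩ := Submodule.exists_le_ker_of_notMem hne
    let s : Finset ι := Finset.univ.filter fun j => f (Pi.single j 1) ≠ 0
    have hfx : ∀ y : ι → ZMod 2, f y = ∑ j ∈ s, y j := by
      intro y
      have h1 : f y = ∑ j, y j * f (Pi.single j 1) := by
        conv_lhs => rw [pi_eq_sum_univ' y]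
        rw [map_sum]
        refine Finset.sum_congr rfl fun j _ => ?_
        rw [map_smul, smul_eq_mul]
      rw [h1, Finset.sum_filter]
      refine Finset.sum_congr rfl fun j _ => ?_
      by_cases h : f (Pi.single j 1) = 0
      · simp [h]
      · rw [if_pos h, zmod2_cases _ h, mul_one]
    apply hf0
    have h1 : ∏ j ∈ s, π j = 1 := by
      apply hs
      intro v
      have h2 : f (x v) = 0 := hf (Submodule.subset_span ⟨v, rfl⟩)
      rw [hfx] at h2
      have h3 := chi_sum s (x v)
      rw [h2, chi_zero] at h3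
      rw [h3]
      exact Finset.prod_congr rfl fun j _ => (chi_ex2 (hψ v j)).symm
    rw [hfx]
    by_contra hcon
    have h3 := chi_sum s (fun j => ex2 (π j))
    have h4 : ∏ j ∈ s, chi (ex2 (π j)) = ∏ j ∈ s, π j :=
      Finset.prod_congr rfl fun j _ => chi_ex2 (hπ j)
    rw [h4, h1, zmod2_cases _ hcon] at h3
    exact absurd h3 (by decide)
  obtain ⟨c, hc⟩ := Finsupp.mem_span_range_iff_exists_finsupp.1 hy
  refine ⟨c.support, fun j => ?_⟩
  have h5 : ∑ v ∈ c.support, x v j = ex2 (π j) := by
    have := congrFun hc j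
    rw [Finsupp.sum, Finset.sum_apply] at this
    rw [← this]
    refine Finset.sum_congr rfl fun v hv => ?_
    rw [Pi.smul_apply, zmod2_cases _ (Finsupp.mem_support_iff.1 hv), one_smul]
  have h6 := chi_sum c.support (fun v => x v j)
  rw [h5, chi_ex2 (hπ j)] at h6
  rw [h6]
  exact Finset.prod_congr rfl fun v _ => (chi_ex2 (hψ v j)).symm

end Pool.Agent.H32.N6W
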