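import Pool.Agent.H32.N6W.Targets
import Pool.Agent.H34.N6V.Core
import Pool.Agent.H23.N6E.EBD2

/-!
# Two quadrics in `ℙ⁶`, all smooth intersections: the hypotheses of the device
-/

set_option autoImplicit false

open Polynomial NumberField IsDedekindDomain Matrix Pool.Agent.H32.QC Pool.Agent.H34.N6
open Pool.Agent.H13.DEV Pool.Agent.H34.N6V Pool.Agent.H63.WT

namespace Pool.Agent.H32.N6W

section sq

variable {F : Type*} [Field F]

/-- squares modulo coprime polynomials -/
theorem sqMod_mul {A B D : F[X]} (hA : SqMod A D) (hB : SqMod B D) (h : IsCoprime A B) :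
    SqMod (A * B) D := by
  obtain ⟨s, c, hs⟩ := hA
  obtain ⟨t, d, ht⟩ := hB
  obtain ⟨a, b, hab⟩ := h
  refine ⟨s * (b * B) + t * (a * A), ?_⟩
  apply IsCoprime.mul_dvd ⟨a, b, hab⟩
  · refine ⟨c + s ^ 2 * (a * (1 + b * B)) - 2 * s * b * B * t * a - t ^ 2 * a ^ 2 * A, ?_⟩
    linear_combination hs + s ^ 2 * (-(1 + b * B)) * hab
  · refine ⟨d + t ^ 2 * (b * (1 + a * A)) - 2 * s * b * t * a * A - s ^ 2 * b ^ 2 * B, ?_⟩
    linear_combination ht + t ^ 2 * (-(1 + a * A)) * hab

theorem sqMod_one (D : F[X]) : SqMod 1 D := ⟨0, one_dvd _⟩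

theorem sqMod_prod {ι : Type*} {P : ι → F[X]} {D : F[X]} (s : Finset ι)
    (h : ∀ j ∈ s, SqMod (P j) D) (hc : ∀ i ∈ s, ∀ j ∈ s, i ≠ j → IsCoprime (P i) (P j)) :
    SqMod (∏ j ∈ s, P j) D := by
  classical
  induction s using Finset.induction_on with
  | empty =>
    rw [Finset.prod_empty]
    exact sqMod_one D
  | insert a s ha ih =>
    rw [Finset.prod_insert ha]
    apply sqMod_mul (h a (Finset.mem_insert_self a s))
    · apply ih
      · intro j hj
        exact h j (Finset.mem_insert_of_mem hj)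
      · intro i hi j hj
        exact hc i (Finset.mem_insert_of_mem hi) j (Finset.mem_insert_of_mem hj)
    · apply IsCoprime.prod_right
      intro j hj
      apply hc a (Finset.mem_insert_self a s) j (Finset.mem_insert_of_mem hj)
      rintro rfl
      exact ha hj

theorem sqMod_map {E : Type*} [Field E] {P D : F[X]} (h : SqMod P D) (φ : F →+* E) :
    SqMod (P.map φ) (D.map φ) := by
  obtain ⟨s, c, hs⟩ := h
  refine ⟨s.map φ, c.map φ, ?_⟩
  rw [← Polynomial.map_pow, ← Polynomial.map_sub, hs, Polynomial.map_mul]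

theorem sq_of_sqMod {E : Type*} [Field E] {P D : F[X]} (h : SqMod P D) (φ : F →+* E) {x : E}
    (hx : eval₂ φ x P = 0) : IsSquare (eval₂ φ x D) := by
  obtain ⟨s, c, hs⟩ := h
  refine ⟨eval₂ φ x s, ?_⟩
  have h1 : D = s ^ 2 + P * c := by linear_combination hs
  rw [h1, eval₂_add, eval₂_mul, hx, zero_mul, add_zero, eval₂_pow, pow_two]

theorem fam_coprime {k ι : Type} [Field k] {P E : ι → k[X]} (h : Fam P E) {i j : ι}
    (hij : i ≠ j) : IsCoprime (P i) (P j) := by
  rw [(h.irr i).coprime_iff_not_dvd]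
  intro hd
  have h1 := h.zero i j hij
  have h2 := hd.trans (h.one j)
  have h3 : P i ∣ 1 := by
    have := dvd_sub h1 h2
    rwa [sub_sub_cancel] at this
  exact (h.irr i).not_isUnit (isUnit_of_dvd_one h3)

end sq

theorem pf_HYP (hADC : Pool.Agent.H32.QC.T_ADC) (hHEN : Pool.Agent.H13.DEV.T_HEN)
    (hSPL : T_SPL) (hGB1 : T_GB1) (hGB2 : T_GB2) (hGB3 : T_GB3) : T_HYP := by
  intro k ι _ _ _ _ P D Pj Ej J S N G ε hP h7 hsep hD hsq hfam hprod hJ hgood hreal hodd hle
    hloc
  have hmon : ∀ s : Finset ι, (∏ j ∈ s, Pj j).Monic := fun s =>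
    monic_prod_of_monic _ _ fun j _ => hfam.mon j
  have hQ : ∏ j : J, Pj j = ∏ j ∈ J, Pj j := Finset.prod_coe_sort J Pj
  have hPQ : (∏ j ∈ J, Pj j) * ∏ j ∈ Jᶜ, Pj j = P := by
    rw [Finset.prod_mul_prod_compl, hprod]
  have hRsq : SqMod (∏ j ∈ Jᶜ, Pj j) D := by
    apply sqMod_prod
    · intro j hj
      rw [Finset.mem_compl, hJ, not_not] at hj
      exact hj
    · intro i _ j _ hij
      exact fam_coprime hfam hij
  have hQP : (∏ j ∈ J, Pj j) ∣ P := ⟨_, hPQ.symm⟩
  have hcop : IsCoprime (∏ j ∈ J, Pj j) (∏ j ∈ Jᶜ, Pj j) := by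
    apply IsCoprime.prod_left
    intro i hi
    apply IsCoprime.prod_right
    intro j hj
    apply fam_coprime hfam
    rintro rfl
    exact (Finset.mem_compl.1 hj) hi
  refine ⟨⟨fun j => hfam.mon j, fun j => hfam.irr j, fun j => hfam.one j, fun i j hij =>
    hfam.zero i j fun h => hij (Subtype.ext h)⟩, fun j => (hJ j).1 j.2, ?_,
    fun v hv => (hgood v hv).2, hreal, hodd, ?_, ?_, ?_, ?_, ?_, ?_, ?_⟩
  · intro j hj
    have h1 : Pj j ∣ P := by
      rw [← hprod]
      exact Finset.dvd_prod_of_mem Pj (Finset.mem_univ _)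
    exact (hfam.irr j).not_isUnit (hD.isUnit_of_dvd' h1 hj)
  · rw [hQ]
    exact (natDegree_le_of_dvd hQP hP.ne_zero).trans hle
  · intro v hv
    obtain ⟨h1, h2, h3, h4, h5⟩ := hloc v hv
    refine ⟨h1, h2, h3, ?_, ?_⟩
    · rw [hQ]
      exact h4.of_isCoprime_of_dvd_right hQP
    · intro G' hm hd hc K _ _ _ w hw θ hθ h0 _
      exact h5 G' hm hd hc K w hw θ hθ h0
  · intro K _ _ _ θ w₀ _ h w hne
    exact (all_but_one hSPL hP h7 hD θ w₀ hne fun w' hw' => h w' hw' hne).2 w
  · intro K _ _ _ w θ hw hθ _ h hne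
    apply gb1_apply hADC hGB1 hP h7 hsq w θ (hgood _ hw).1 hθ hne
    intro e he hlt
    rw [← hPQ, eval₂_mul] at he
    rcases mul_eq_zero.1 he with h1 | h1
    · exact h e (by rw [hQ]; exact h1) hlt
    · exact sq_of_sqMod hRsq _ h1
  · rintro K _ _ _ w θ hw hθ hne ⟨e, he, hlt, hmx, hns⟩ hR
    rw [hQ] at hne he
    have heP : eval₂ (kc k w) e P = 0 := by
      rw [← hPQ, eval₂_mul, he, zero_mul]
    have hne' : aeval θ P ≠ 0 := by
      intro h0
      have hF := goodF hP h7 hsq w (hgood _ hw).1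
      have h1 : eval (ic w θ) (P.map (kc k w)) = 0 := by
        rw [eval_ic, h0, map_zero]
      have h2 : ‖eval (ic w θ) (derivative (P.map (kc k w)))‖ = 1 := by
        obtain ⟨a, b, ha, hb, hab⟩ := hF.sep
        have h3 := congrArg (eval (ic w θ)) hab
        rw [eval_add, eval_mul, eval_mul, h1, mul_zero, zero_add, eval_one] at h3
        have hi : ∀ Q : (w.adicCompletion K)[X], (∀ i, ‖Q.coeff i‖ ≤ 1) →
            ‖eval (ic w θ) Q‖ ≤ 1 := by
          intro Q hQ
          rw [Polynomial.eval_eq_sum_range]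
          apply IsUltrametricDist.norm_sum_le_of_forall_le_of_nonneg zero_le_one
          intro i _
          rw [norm_mul, norm_pow]
          exact mul_le_one₀ (hQ i) (by positivity) (pow_le_one₀ (norm_nonneg _) hθ)
        have h4 := hi b hb
        have h5 : ∀ i, ‖(derivative (P.map (kc k w))).coeff i‖ ≤ 1 := by
          intro i
          rw [coeff_derivative]
          have h6 : ‖((i : w.adicCompletion K) + 1)‖ ≤ 1 := by
            have := IsUltrametricDist.norm_natCast_le_one (w.adicCompletion K) (i + 1)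
            push_cast at this
            exact this
          rw [norm_mul]
          exact mul_le_one₀ (hF.intP (i + 1)) (norm_nonneg _) h6
        have h6 := hi _ h5
        have h7 := congrArg norm h3
        rw [norm_mul, norm_one] at h7
        apply le_antisymm h6
        rw [← h7]
        exact mul_le_of_le_one_left (norm_nonneg _) h4
      obtain ⟨hp, hc, -⟩ := hADC K w
      obtain ⟨b, hb1, hb2, hb3⟩ := hHEN (w.adicCompletion K) (P.map (kc k w)) (ic w θ)
        hF.intP hθ (by rw [h1, norm_zero]; exact one_pos) h2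
      have h8 := hb3 e (by rw [eval_map]; exact heP) hlt
      have h9 := hb3 (ic w θ) h1 (by rw [sub_self, norm_zero]; exact one_pos)
      apply hne
      apply (ic w).injective
      rw [map_zero, ← eval_ic]
      have h10 : ic w θ = e := h9.trans h8.symm
      rw [h10, eval_map]
      exact he
    exact gb2_apply hADC hGB2 hP h7 hsq w θ (hgood _ hw).1 hθ hne' ⟨e, heP, hlt, hmx, hns⟩
      (hR hne')
  · intro K _ _ _ w θ _ h1 h2 hne
    rw [hQ] at h1 h2
    have h3 : SqMod ((∏ j ∈ J, Pj j).map (kc k w)) (D.map (kc k w)) := by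
      apply sqMod_of_roots h1
      · apply Polynomial.Separable.map
        exact hsep.of_dvd hQP
      · intro e he
        rw [eval_map] at he ⊢
        exact h2 e he
    have h4 : SqMod (P.map (kc k w)) (D.map (kc k w)) := by
      rw [← hPQ, Polynomial.map_mul]
      exact sqMod_mul h3 (sqMod_map hRsq _) (hcop.map (Polynomial.mapRingHom (kc k w)))
    exact pf_SQ3 (w.adicCompletion K) (P.map (kc k w)) (D.map (kc k w)) (ic w θ) (hP.map _)
      (by rw [hP.natDegree_map, h7]) (hD.map (Polynomial.mapRingHom (kc k w))) h4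
  · intro K _ _ _ w θ hw hθ _
    exact gb3_apply hADC hGB3 hP h7 hsq w θ (hgood _ hw).1 hθ

end Pool.Agent.H32.N6W
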