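import Pool.Agent.H32.N6W.Targets
import Pool.Agent.H32.N6W.TargetsL
import Pool.Agent.H34.N6W.Sel

/-!
# Two quadrics in `ℙ⁶`, all smooth intersections: the choice of the local data
-/

set_option autoImplicit false

open Polynomial NumberField IsDedekindDomain Matrix Pool.Agent.H32.QC Pool.Agent.H34.N6
open Pool.Agent.H13.DEV Pool.Agent.H34.N6V Pool.Agent.H63.WT

namespace Pool.Agent.H32.N6W

theorem sgn_mul {x y : ℤ} (hx : x = 1 ∨ x = -1) (hy : y = 1 ∨ y = -1) :
    x * y = 1 ∨ x * y = -1 := by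
  rcases hx with h | h <;> rcases hy with h' | h' <;> simp [h, h']

theorem sgn_prod {α : Type*} (s : Finset α) (f : α → ℤ) (h : ∀ a ∈ s, f a = 1 ∨ f a = -1) :
    ∏ a ∈ s, f a = 1 ∨ ∏ a ∈ s, f a = -1 := by
  classical
  induction s using Finset.induction_on with
  | empty => exact Or.inl Finset.prod_empty
  | insert a s ha ih =>
    rw [Finset.prod_insert ha]
    exact sgn_mul (h a (Finset.mem_insert_self a s))
      (ih fun b hb => h b (Finset.mem_insert_of_mem hb))

theorem hpr_sgn {F : Type} [Field F] (A a b : F[X]) : hpr A a b = 1 ∨ hpr A a b = -1 := by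
  have h : ∀ s : Multiset F[X], (s.map fun p => hm p a b).prod = 1 ∨
      (s.map fun p => hm p a b).prod = -1 := by
    intro s
    induction s using Multiset.induction_on with
    | empty => exact Or.inl (by simp)
    | cons p s ih =>
      rw [Multiset.map_cons, Multiset.prod_cons]
      apply sgn_mul _ ih
      unfold hm
      split_ifs
      · exact Or.inl rfl
      · exact Or.inr rfl
  exact h _

section att

variable {F ι : Type} [Field F] {P D : F[X]} {Pj : ι → F[X]} {x y z : ι → ℤ}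

theorem Att.sgn (h : Att P D Pj x) (j : ι) : x j = 1 ∨ x j = -1 := by
  obtain ⟨n, A, -, -, hx⟩ := h
  rw [hx]
  exact sgn_prod _ _ fun i _ => hpr_sgn _ _ _

theorem Att.mul3 (h1 : Att P D Pj x) (h2 : Att P D Pj y) (h3 : Att P D Pj z) :
    Att P D Pj (x * y * z) := by
  obtain ⟨n1, A1, hn1, hA1, hx1⟩ := h1
  obtain ⟨n2, A2, hn2, hA2, hx2⟩ := h2
  obtain ⟨n3, A3, hn3, hA3, hx3⟩ := h3
  refine ⟨n1 + n2 + n3, Fin.append (Fin.append A1 A2) A3, (hn1.add_odd hn2).add_odd hn3, ?_, ?_⟩
  · intro i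
    refine Fin.addCases (fun i => ?_) (fun i => ?_) i
    · rw [Fin.append_left]
      refine Fin.addCases (fun i => ?_) (fun i => ?_) i
      · rw [Fin.append_left]
        exact hA1 i
      · rw [Fin.append_right]
        exact hA2 i
    · rw [Fin.append_right]
      exact hA3 i
  · intro j
    rw [Fin.prod_univ_add, Fin.prod_univ_add]
    simp only [Fin.append_left, Fin.append_right]
    rw [Pi.mul_apply, Pi.mul_apply, hx1, hx2, hx3]

end att

section attr

variable {k ι : Type} [Field k] {P D : k[X]} {Pj : ι → k[X]} {v : k →+* ℝ} {x y z : ι → ℤ}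

theorem AttR.sgn (h : AttR P D Pj v x) (j : ι) : x j = 1 ∨ x j = -1 := by
  obtain ⟨n, c, η, -, -, -, -, hx⟩ := h
  rw [hx]
  exact sgn_prod _ _ fun i _ => hpr_sgn _ _ _

theorem AttR.mul3 (h1 : AttR P D Pj v x) (h2 : AttR P D Pj v y) (h3 : AttR P D Pj v z) :
    AttR P D Pj v (x * y * z) := by
  obtain ⟨n1, A1, e1, hn1, he1, hc1, hA1, hx1⟩ := h1
  obtain ⟨n2, A2, e2, hn2, he2, hc2, hA2, hx2⟩ := h2
  obtain ⟨n3, A3, e3, hn3, he3, hc3, hA3, hx3⟩ := h3
  refine ⟨n1 + n2 + n3, Fin.append (Fin.append A1 A2) A3, min (min e1 e2) e3,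
    (hn1.add_odd hn2).add_odd hn3, lt_min (lt_min he1 he2) he3, ?_, ?_, ?_⟩
  · intro i
    refine Fin.addCases (fun i => ?_) (fun i => ?_) i
    · rw [Fin.append_left]
      refine Fin.addCases (fun i => ?_) (fun i => ?_) i
      · rw [Fin.append_left]
        exact hc1 i
      · rw [Fin.append_right]
        exact hc2 i
    · rw [Fin.append_right]
      exact hc3 i
  · intro i t
    refine Fin.addCases (fun i => ?_) (fun i => ?_) i
    · rw [Fin.append_left]
      refine Fin.addCases (fun i => ?_) (fun i => ?_) i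
      · rw [Fin.append_left]
        intro ht
        exact hA1 i t (ht.trans_le ((min_le_left _ _).trans (min_le_left _ _)))
      · rw [Fin.append_right]
        intro ht
        exact hA2 i t (ht.trans_le ((min_le_left _ _).trans (min_le_right _ _)))
    · rw [Fin.append_right]
      intro ht
      exact hA3 i t (ht.trans_le (min_le_right _ _))
  · intro j
    rw [Fin.prod_univ_add, Fin.prod_univ_add]
    simp only [Fin.append_left, Fin.append_right]
    rw [Pi.mul_apply, Pi.mul_apply, hx1, hx2, hx3]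

end attr

section res

theorem res_map {k F : Type} [Field k] [Field F] (φ : k →+* F) (A D : k[X]) :
    (A.map φ).resultant (D.map φ) = φ (A.resultant D) := by
  rw [Polynomial.natDegree_map, Polynomial.natDegree_map, resultant_map_map]

theorem isSquare_map' {k F : Type} [Field k] [Field F] (φ : k →+* F) {x : k}
    (h : IsSquare x) : IsSquare (φ x) := by
  obtain ⟨y, rfl⟩ := h
  exact ⟨φ y, map_mul φ y y⟩

theorem sq_symmDiff {k ι : Type} [Field k] [DecidableEq ι] {r : ι → k} (hr : ∀ j, r j ≠ 0)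
    {s t : Finset ι} (hs : IsSquare (∏ j ∈ s, r j)) (ht : IsSquare (∏ j ∈ t, r j)) :
    IsSquare (∏ j ∈ symmDiff s t, r j) := by
  obtain ⟨a, ha⟩ := hs
  obtain ⟨b, hb⟩ := ht
  have h0 : ∏ j ∈ s ∩ t, r j ≠ 0 := Finset.prod_ne_zero_iff.2 fun j _ => hr j
  have h1 : (∏ j ∈ symmDiff s t, r j) * (∏ j ∈ s ∩ t, r j) ^ 2 =
      (∏ j ∈ s, r j) * ∏ j ∈ t, r j := by
    have e1 : ∏ j ∈ symmDiff s t, r j = (∏ j ∈ s \ t, r j) * ∏ j ∈ t \ s, r j := by
      have h2 : symmDiff s t = (s \ t) ∪ (t \ s) := rfl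
      rw [h2, Finset.prod_union]
      exact disjoint_sdiff_sdiff
    have e2 : ∏ j ∈ s, r j = (∏ j ∈ s ∩ t, r j) * ∏ j ∈ s \ t, r j :=
      (Finset.prod_inter_mul_prod_sdiff s t r).symm
    have e3 : ∏ j ∈ t, r j = (∏ j ∈ s ∩ t, r j) * ∏ j ∈ t \ s, r j := by
      rw [Finset.inter_comm]
      exact (Finset.prod_inter_mul_prod_sdiff t s r).symm
    rw [e1, e2, e3]
    ring
  refine ⟨a * b / ∏ j ∈ s ∩ t, r j, ?_⟩
  have h2 : ∏ j ∈ symmDiff s t, r j =
      ((∏ j ∈ s, r j) * ∏ j ∈ t, r j) / (∏ j ∈ s ∩ t, r j) ^ 2 := by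
    rw [← h1, mul_div_assoc, div_self (pow_ne_zero 2 h0), mul_one]
  rw [h2, ha, hb]
  field_simp

theorem sq_compl {k ι : Type} [Field k] [Fintype ι] [DecidableEq ι] {r : ι → k}
    (hr : ∀ j, r j ≠ 0) {s : Finset ι} (hs : IsSquare (∏ j ∈ s, r j))
    (hu : IsSquare (∏ j, r j)) : IsSquare (∏ j ∈ sᶜ, r j) := by
  have h1 := sq_symmDiff hr hs hu
  have h2 : symmDiff s Finset.univ = sᶜ := by
    ext j
    simp [Finset.mem_symmDiff]
  rw [h2] at h1
  exact h1

end res

theorem close_mono {k : Type} [Field k] [NumberField k] {v : Pl k} {a b : ℝ} (hab : a ≤ b)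
    {G G' : k[X]} (h : Close v a G G') : Close v b G G' := fun i => (h i).trans_le hab

/-- nonzero rational numbers are dense -/
theorem exists_near {k : Type} [Field k] [CharZero k] (φ : k →+* ℝ) (x : ℝ) {η : ℝ}
    (hη : 0 < η) : ∃ c : k, |φ c - x| < η := by
  obtain ⟨q, hq⟩ := exists_rat_near x hη
  refine ⟨(q : k), ?_⟩
  rw [map_ratCast, abs_sub_comm]
  exact hq

end Pool.Agent.H32.N6W
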